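import Pool.Agent.Q85.VL.Defs
import Pool.Agent.Q67.VD.Alg

/-!
Project VL: common calculus of the test functions (helper33).
-/

set_option autoImplicit false

open MeasureTheory Set Metric
open scoped ContDiff
open H459R3.NS Pool.Agent.W268.NS Pool.Agent.Q67.VD

namespace Pool.Agent.Helper33VL

open Pool.Agent.Q85.CC Pool.Agent.Q85.CL Pool.Agent.Q85.VL
open Pool.Agent.Q151.CC (WD coord_sq)

/-! ### the Euclidean length -/

lemma len_nn (a : V) : 0 ≤ len a := Real.sqrt_nonneg _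

lemma len_tri (a b : V) : len (a + b) ≤ len a + len b := by
  simp only [len_eq]
  exact norm_add_le (WithLp.toLp 2 a : EuclideanSpace ℝ (Fin 3)) (WithLp.toLp 2 b)

lemma len_neg (a : V) : len (-a) = len a := by
  have : -a = (-1 : ℝ) • a := by simp
  rw [this, Pool.Agent.Q67.VD.len_smul]
  simp

lemma len_comm (a b : V) : len (a - b) = len (b - a) := by
  rw [← len_neg (a - b), neg_sub]

lemma len_sq3 (a : V) : len a ^ 2 = a ⬝ᵥ a := by
  unfold len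
  rw [Real.sq_sqrt]
  rw [Pool.Agent.Q151.CC.dot3]
  nlinarith [sq_nonneg (a 0), sq_nonneg (a 1), sq_nonneg (a 2)]

lemma norm_le_len (a : V) : ‖a‖ ≤ len a := by
  rw [pi_norm_le_iff_of_nonneg (len_nn a)]
  intro i
  rw [Real.norm_eq_abs]
  refine abs_le_of_sq_le_sq ?_ (len_nn a)
  rw [len_sq3]
  exact coord_sq a i

lemma len_le_norm (a : V) : len a ≤ √3 * ‖a‖ := by
  have h : ∀ i, a i ^ 2 ≤ ‖a‖ ^ 2 := by
    intro i
    rw [← sq_abs]
    exact pow_le_pow_left₀ (abs_nonneg _) (norm_le_pi_norm a i) 2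
  refine Real.sqrt_le_iff.2 ⟨by positivity, ?_⟩
  rw [Pool.Agent.Q151.CC.dot3, mul_pow, Real.sq_sqrt (by norm_num)]
  nlinarith [h 0, h 1, h 2]

lemma len_le_norm' (a : V) : len a ≤ 7 / 4 * ‖a‖ := by
  refine (len_le_norm a).trans (mul_le_mul_of_nonneg_right ?_ (norm_nonneg _))
  rw [Real.sqrt_le_left (by norm_num)]
  norm_num

/-! ### derivatives -/

/-- the derivative of a function with Lipschitz constant one -/
lemma fderiv_lip {g : V → ℝ} {y : V} (hg : DifferentiableAt ℝ g y)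
    (hl : ∀ y z, |g y - g z| ≤ len (y - z)) (n : V) : |fderiv ℝ g y n| ≤ len n := by
  have h1 : HasDerivAt (fun t : ℝ => g (y + t • n)) (fderiv ℝ g y n) 0 := by
    have h2 : HasDerivAt (fun t : ℝ => y + t • n) n 0 := by
      simpa using ((hasDerivAt_id (0 : ℝ)).smul_const n).const_add y
    have h3 : HasFDerivAt g (fderiv ℝ g y) (y + (0 : ℝ) • n) := by
      rw [zero_smul, add_zero]
      exact hg.hasFDerivAt
    exact h3.comp_hasDerivAt 0 h2
  have h4 := h1.le_of_lip' (len_nn n) (Filter.Eventually.of_forall fun t => by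
    have h5 := hl (y + t • n) (y + (0 : ℝ) • n)
    have e : y + t • n - (y + (0 : ℝ) • n) = t • n := by simp
    rw [e, Pool.Agent.Q67.VD.len_smul] at h5
    rw [Real.norm_eq_abs, Real.norm_eq_abs, sub_zero]
    linarith)
  rwa [Real.norm_eq_abs] at h4

/-- the step from `a` to `a + b` -/
noncomputable def st (a b s : ℝ) : ℝ := stp ((s - a) / b)

/-- its derivative -/
noncomputable def st' (a b s : ℝ) : ℝ := stp' ((s - a) / b) / b

section Bas

variable (hB : StmBas)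

include hB

lemma st_der (a b s : ℝ) : HasDerivAt (st a b) (st' a b s) s := by
  have h1 : HasDerivAt (fun s : ℝ => (s - a) / b) (1 / b) s :=
    ((hasDerivAt_id s).sub_const a).div_const b
  have h2 := (hB.1 ((s - a) / b)).comp s h1
  have e : stp' ((s - a) / b) * (1 / b) = st' a b s := by
    unfold st'
    ring
  rw [e] at h2
  exact h2

lemma st_c1 (a b : ℝ) : ContDiff ℝ 1 (st a b) := by
  unfold st
  exact hB.2.1.comp (by fun_prop)

lemma st'_cont (a b : ℝ) : Continuous (st' a b) := by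
  unfold st'
  have := hB.2.2.1
  fun_prop

lemma st_nn (a b s : ℝ) : 0 ≤ st a b s := (hB.2.2.2.2.1 _).1

lemma st_le (a b s : ℝ) : st a b s ≤ 1 := (hB.2.2.2.2.1 _).2.1

lemma st'_nn {b : ℝ} (hb : 0 < b) (a s : ℝ) : 0 ≤ st' a b s :=
  div_nonneg (hB.2.2.2.2.1 _).2.2.1 hb.le

lemma st'_le {b : ℝ} (hb : 0 < b) (a s : ℝ) : st' a b s ≤ 2 / b :=
  div_le_div_of_nonneg_right (hB.2.2.2.2.1 _).2.2.2 hb.le

lemma st_zero {a b s : ℝ} (hb : 0 < b) (h : s ≤ a) : st a b s = 0 :=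
  hB.2.2.2.2.2.1 _ (div_nonpos_of_nonpos_of_nonneg (by linarith) hb.le)

lemma st_one {a b s : ℝ} (hb : 0 < b) (h : a + b ≤ s) : st a b s = 1 := by
  refine hB.2.2.2.2.2.2.1 _ ?_
  rw [le_div_iff₀ hb]
  linarith

lemma st'_ne {a b s : ℝ} (hb : 0 < b) (h : st' a b s ≠ 0) : a < s ∧ s < a + b := by
  have h1 : stp' ((s - a) / b) ≠ 0 := by
    intro h0
    exact h (by unfold st'; rw [h0, zero_div])
  obtain ⟨h2, h3⟩ := hB.2.2.2.2.2.2.2.1 _ h1
  rw [lt_div_iff₀ hb] at h2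
  rw [div_lt_iff₀ hb] at h3
  constructor <;> linarith

lemma st_pos {a b s : ℝ} (hb : 0 < b) (h : st a b s ≠ 0) : a < s := by
  by_contra hc
  exact h (st_zero hB hb (not_lt.1 hc))

lemma st_lt {a b s : ℝ} (hb : 0 < b) (h : st a b s ≠ 1) : s < a + b := by
  by_contra hc
  exact h (st_one hB hb (not_lt.1 hc))

lemma st_mono {a b : ℝ} (hb : 0 < b) : Monotone (st a b) := by
  intro s t hst
  exact hB.2.2.2.1 (div_le_div_of_nonneg_right (by linarith) hb.le)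

/-- monotone in the thresholds -/
lemma st_ge {a b a' b' s : ℝ} (hb : 0 < b) (hb' : 0 < b') (h : a' + b' ≤ a) :
    st a b s ≤ st a' b' s := by
  rcases le_or_gt s a with h1 | h1
  · rw [st_zero hB hb h1]
    exact st_nn hB _ _ _
  · rw [st_one hB hb' (by linarith)]
    exact st_le hB _ _ _

end Bas

/-! ### the functions `u` and `w` -/

section UW

variable {κ ρ R : ℝ} {x : V} {f m : V → ℝ} {W : V → V} {g : V → ℝ}

lemma ds_eq (x : V) (ρ : ℝ) : ds x ρ = fun y => √((y - x) ⬝ᵥ (y - x) + ρ ^ 2) := rfl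

section Bas2

variable (hB : StmBas)

include hB

lemma ds_smooth (hρ : 0 < ρ) : ContDiff ℝ 1 (ds x ρ) :=
  (hB.2.2.2.2.2.2.2.2.2.2 x ρ hρ).1.of_le (by norm_cast)

lemma ds_facts (x : V) (hρ : 0 < ρ) : (∀ y, len (y - x) ≤ ds x ρ y) ∧
    (∀ y, ρ ≤ ds x ρ y) ∧ (∀ y, ds x ρ y ≤ len (y - x) + ρ) ∧ (∀ y, ‖y - x‖ ≤ ds x ρ y) ∧
    (∀ y, ‖y - x‖ ≤ ρ → ds x ρ y ≤ 2 * ρ) ∧
    (∀ y z, |ds x ρ y - ds x ρ z| ≤ len (y - z)) ∧ ∀ y n, |fderiv ℝ (ds x ρ) y n| ≤ len n :=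
  (hB.2.2.2.2.2.2.2.2.2.2 x ρ hρ).2

lemma uw_c1 (c : ℝ) (hρ : 0 < ρ) (hg : ContDiff ℝ 1 g) :
    ContDiff ℝ 1 (fun y => g y - g x - c * ds x ρ y) :=
  (hg.sub contDiff_const).sub (contDiff_const.mul (ds_smooth hB hρ))

lemma uw_der (c : ℝ) (hρ : 0 < ρ) (hg : ContDiff ℝ 1 g) (y n : V) :
    fderiv ℝ (fun y => g y - g x - c * ds x ρ y) y n
      = fderiv ℝ g y n - c * fderiv ℝ (ds x ρ) y n := by
  have h1 : HasFDerivAt g (fderiv ℝ g y) y := (hg.differentiable one_ne_zero y).hasFDerivAt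
  have h2 : HasFDerivAt (ds x ρ) (fderiv ℝ (ds x ρ) y) y :=
    ((ds_smooth hB hρ).differentiable one_ne_zero y).hasFDerivAt
  have h3 := (h1.sub_const (g x)).fun_sub (h2.const_mul c)
  rw [h3.fderiv]
  rfl

lemma uu_c1 (hρ : 0 < ρ) (hg : ContDiff ℝ 1 g) : ContDiff ℝ 1 (uu κ ρ g x) :=
  uw_c1 hB (κ / 2) hρ hg

lemma ww_c1 (hρ : 0 < ρ) (hg : ContDiff ℝ 1 g) : ContDiff ℝ 1 (ww κ ρ g x) :=
  uw_c1 hB (3 * κ / 4) hρ hg

/-- `Du(W) + m ≥ (κ / 2) f` -/
lemma uu_lo (hκ : 0 < κ) (hρ : 0 < ρ) (h : LF κ R x f m W g) {y : V} (z : V)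
    (hy : y ∈ closedBall x R) : κ / 2 * f y ≤ fderiv ℝ (uu κ ρ g z) y (W y) + m y := by
  have h1 := h.lo y hy
  have h2 := uw_der hB (x := z) (κ / 2) hρ h.gs y (W y)
  have h3 := (ds_facts hB z hρ).2.2.2.2.2.2 y (W y)
  have h4 := h.up y hy
  have h5 := (abs_le.1 h3).2
  have h6 : fderiv ℝ (uu κ ρ g z) y (W y) = fderiv ℝ g y (W y) - κ / 2 * fderiv ℝ (ds z ρ) y (W y) :=
    h2
  rw [h6]
  nlinarith

/-- `Dw(W) + m ≥ (κ / 4) f` -/
lemma ww_lo (hκ : 0 < κ) (hρ : 0 < ρ) (h : LF κ R x f m W g) {y : V} (z : V)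
    (hy : y ∈ closedBall x R) : κ / 4 * f y ≤ fderiv ℝ (ww κ ρ g z) y (W y) + m y := by
  have h1 := h.lo y hy
  have h2 := uw_der hB (x := z) (3 * κ / 4) hρ h.gs y (W y)
  have h3 := (ds_facts hB z hρ).2.2.2.2.2.2 y (W y)
  have h4 := h.up y hy
  have h5 := (abs_le.1 h3).2
  have h6 : fderiv ℝ (ww κ ρ g z) y (W y)
      = fderiv ℝ g y (W y) - 3 * κ / 4 * fderiv ℝ (ds z ρ) y (W y) := h2
  rw [h6]
  nlinarith

omit hB in
lemma f_nn (h : LF κ R x f m W g) {y : V} (hy : y ∈ closedBall x R) : 0 ≤ f y :=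
  (len_nn _).trans (h.up y hy)

lemma uu_up (hκ : 0 < κ) (hκ1 : κ ≤ 1) (hρ : 0 < ρ) (h : LF κ R x f m W g) {y : V} (z : V)
    (hy : y ∈ closedBall x R) : fderiv ℝ (uu κ ρ g z) y (W y) ≤ 2 * f y := by
  have h2 := uw_der hB (x := z) (κ / 2) hρ h.gs y (W y)
  have h3 := (ds_facts hB z hρ).2.2.2.2.2.2 y (W y)
  have h4 := h.up y hy
  have h5 := (abs_le.1 h3).1
  have h7 := (abs_le.1 (fderiv_lip (h.gs.differentiable one_ne_zero y) h.lip (W y))).2
  have h6 : fderiv ℝ (uu κ ρ g z) y (W y) = fderiv ℝ g y (W y) - κ / 2 * fderiv ℝ (ds z ρ) y (W y) :=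
    h2
  have h8 := len_nn (W y)
  rw [h6]
  nlinarith

end Bas2

/-- the value of `TT` and of the factor `ψ` in terms of `st` -/
lemma TT_eq (κ ρ : ℝ) (g : V → ℝ) (x : V) (r : ℝ) (y : V) :
    TT κ ρ g x r y = st (-(κ * r / 8)) (κ * r / 16) (ww κ ρ g x y) := by
  unfold TT st
  congr 2
  ring

lemma PS_eq (κ ρ : ℝ) (g : V → ℝ) (x : V) (r : ℝ) (y : V) :
    PS κ ρ g x r y = st (κ * r / 64) (κ * r / 64) (uu κ ρ g x y) := rfl

lemma pr_eq (κ ρ : ℝ) (g : V → ℝ) (x : V) (W : V → V) (m : V → ℝ) (r : ℝ) (y : V) :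
    pr κ ρ g x W m r y = st (-(κ * r / 8)) (κ * r / 16) (ww κ ρ g x y) *
      (st' (κ * r / 64) (κ * r / 64) (uu κ ρ g x y) * (fderiv ℝ (uu κ ρ g x) y (W y) + m y)) := by
  unfold pr
  rw [TT_eq]
  rfl

/-- `u - w = (κ / 4) ds` -/
lemma uw (κ ρ : ℝ) (g : V → ℝ) (x y : V) :
    uu κ ρ g x y - ww κ ρ g x y = κ / 4 * ds x ρ y := by
  unfold uu ww
  ring

/-- the size of the support -/
lemma ds_lt {r : ℝ} {y : V} (hκ : 0 < κ) (h1 : -(κ * r / 8) < ww κ ρ g x y)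
    (h2 : uu κ ρ g x y < κ * r / 32) : ds x ρ y < 5 / 8 * r := by
  have h3 := uw κ ρ g x y
  have h4 : κ / 4 * ds x ρ y < κ / 4 * (5 / 8 * r) := by
    rw [← h3]
    linarith
  exact lt_of_mul_lt_mul_left h4 (by positivity)

end UW

/-! ### integration -/

/-- the weak identity -/
lemma zero_int {R : ℝ} {x : V} {W : V → V} (h : WD R x W) {F : V → ℝ} (hF : ContDiff ℝ 1 F)
    (hs : ∀ y, F y ≠ 0 → y ∈ closedBall x R) :
    ∫ y in closedBall x R, fderiv ℝ F y (W y) = 0 :=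
  h.div F hF (closure_minimal hs isClosed_closedBall)

lemma int_cb {f : V → ℝ} (hf : Continuous f) (x : V) (r : ℝ) :
    IntegrableOn f (closedBall x r) :=
  hf.continuousOn.integrableOn_compact (isCompact_closedBall x r)

lemma fderiv_W_cont {F : V → ℝ} {W : V → V} (hF : ContDiff ℝ 1 F) (hW : Continuous W) :
    Continuous fun y => fderiv ℝ F y (W y) :=
  (hF.continuous_fderiv one_ne_zero).clm_apply hW

/-- the integral over a smaller cube -/
lemma int_ind {f : V → ℝ} (x : V) {r R : ℝ} (hr : r ≤ R) :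
    ∫ y in closedBall x R, (closedBall x r).indicator f y = ∫ y in closedBall x r, f y := by
  rw [setIntegral_indicator isClosed_closedBall.measurableSet,
    inter_eq_self_of_subset_right (closedBall_subset_closedBall hr)]

lemma ind_int {f : V → ℝ} (hf : Continuous f) (x : V) (r R : ℝ) :
    IntegrableOn ((closedBall x r).indicator f) (closedBall x R) :=
  (int_cb hf x R).indicator isClosed_closedBall.measurableSet

lemma pr_cont {κ ρ R : ℝ} {x : V} {f m : V → ℝ} {W : V → V} {g : V → ℝ} (hB : StmBas)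
    (hρ : 0 < ρ) (h : LF κ R x f m W g) (r : ℝ) : Continuous (pr κ ρ g x W m r) := by
  have h1 : pr κ ρ g x W m r = fun y => st (-(κ * r / 8)) (κ * r / 16) (ww κ ρ g x y) *
      (st' (κ * r / 64) (κ * r / 64) (uu κ ρ g x y) *
        (fderiv ℝ (uu κ ρ g x) y (W y) + m y)) := by
    funext y
    exact pr_eq _ _ _ _ _ _ _ _
  rw [h1]
  have hu := uu_c1 (κ := κ) (x := x) hB hρ h.gs
  have hw := ww_c1 (κ := κ) (x := x) hB hρ h.gs
  exact (((st_c1 hB _ _).continuous.comp hw.continuous)).mul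
    (((st'_cont hB _ _).comp hu.continuous).mul ((fderiv_W_cont hu h.wd.cont).add h.mc))

/-- `pr ≥ 0` and its support -/
lemma pr_nn {κ ρ R : ℝ} {x : V} {f m : V → ℝ} {W : V → V} {g : V → ℝ} (hB : StmBas) (hκ : 0 < κ)
    (hρ : 0 < ρ) (h : LF κ R x f m W g) {r : ℝ} (hr : 0 < r) {y : V} (hy : y ∈ closedBall x R) :
    0 ≤ pr κ ρ g x W m r y := by
  rw [pr_eq]
  have h1 := uu_lo hB hκ hρ h x hy
  have h2 : 0 ≤ κ / 2 * f y := mul_nonneg (by positivity) (f_nn h hy)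
  exact mul_nonneg (st_nn hB _ _ _) (mul_nonneg (st'_nn hB (by positivity) _ _) (by linarith))

/-- the derivative of a composition -/
lemma comp_der {Φ Φ' : ℝ → ℝ} (hΦ : ∀ s, HasDerivAt Φ (Φ' s) s) {h : V → ℝ} {y : V}
    (hh : DifferentiableAt ℝ h y) :
    HasFDerivAt (fun y => Φ (h y)) (Φ' (h y) • fderiv ℝ h y) y :=
  (hΦ (h y)).comp_hasFDerivAt y hh.hasFDerivAt

end Pool.Agent.Helper33VL
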