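import Pool.Agent.Helper33VL.LB

/-!
Project VL, part VL-5 (helper33): the flux leaves the cube.
-/

set_option autoImplicit false

open MeasureTheory Set Metric
open scoped ContDiff
open H459R3.NS Pool.Agent.W268.NS Pool.Agent.Q67.VD

namespace Pool.Agent.Helper33VL

open Pool.Agent.Q85.CC Pool.Agent.Q85.CL Pool.Agent.Q85.VL
open Pool.Agent.Q151.CC (WD coord_sq)

/-- the two sided step: `0` for `|t| ≤ a`, `1` for `|t| ≥ a + b` -/
noncomputable def et (a b t : ℝ) : ℝ := st a b t + st a b (-t)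

noncomputable def et' (a b t : ℝ) : ℝ := st' a b t - st' a b (-t)

section

variable (hB : StmBas)

include hB

lemma et_der (a b t : ℝ) : HasDerivAt (et a b) (et' a b t) t := by
  have h1 := st_der hB a b t
  have h2 := (st_der hB a b (-t)).comp t (hasDerivAt_neg t)
  have h3 := h1.fun_add h2
  have e : st' a b t + st' a b (-t) * -1 = et' a b t := by unfold et'; ring
  rw [e] at h3
  exact h3

lemma et_c1 (a b : ℝ) : ContDiff ℝ 1 (et a b) := by
  unfold et
  exact (st_c1 hB a b).add ((st_c1 hB a b).comp contDiff_neg)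

lemma et_nn (a b t : ℝ) : 0 ≤ et a b t := add_nonneg (st_nn hB _ _ _) (st_nn hB _ _ _)

lemma et_le {a b : ℝ} (ha : 0 < a) (hb : 0 < b) (t : ℝ) : et a b t ≤ 1 := by
  unfold et
  rcases le_total t 0 with h | h
  · rw [st_zero hB hb (by linarith : t ≤ a), zero_add]
    exact st_le hB _ _ _
  · rw [st_zero hB hb (by linarith : -t ≤ a), add_zero]
    exact st_le hB _ _ _

lemma et_zero {a b : ℝ} (hb : 0 < b) {t : ℝ} (h : |t| ≤ a) : et a b t = 0 := by
  unfold et
  have := abs_le.1 h
  rw [st_zero hB hb this.2, st_zero hB hb (by linarith), add_zero]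

lemma et_one {a b : ℝ} (ha : 0 < a) (hb : 0 < b) {t : ℝ} (h : a + b ≤ |t|) : et a b t = 1 := by
  unfold et
  rcases le_total t 0 with h1 | h1
  · rw [abs_of_nonpos h1] at h
    rw [st_zero hB hb (by linarith : t ≤ a), st_one hB hb h, zero_add]
  · rw [abs_of_nonneg h1] at h
    rw [st_zero hB hb (by linarith : -t ≤ a), st_one hB hb h, add_zero]

lemma et'_bd {a b : ℝ} (ha : 0 < a) (hb : 0 < b) (t : ℝ) : |et' a b t| ≤ 2 / b := by
  unfold et'
  have h1 := st'_nn hB hb a t
  have h2 := st'_nn hB hb a (-t)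
  have h3 := st'_le hB hb a t
  have h4 := st'_le hB hb a (-t)
  rw [abs_le]
  constructor <;> linarith

lemma et'_ne {a b : ℝ} (ha : 0 < a) (hb : 0 < b) {t : ℝ} (h : et' a b t ≠ 0) :
    a < |t| ∧ |t| < a + b := by
  unfold et' at h
  by_cases h1 : st' a b t = 0
  · have h2 : st' a b (-t) ≠ 0 := fun h2 => h (by rw [h1, h2, sub_zero])
    obtain ⟨h3, h4⟩ := st'_ne hB hb h2
    rw [abs_of_nonpos (by linarith)]
    exact ⟨h3, h4⟩
  · obtain ⟨h3, h4⟩ := st'_ne hB hb h1
    rw [abs_of_nonneg (by linarith)]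
    exact ⟨h3, h4⟩

/-- the cut-off function of the cube -/
noncomputable def chi (a b : ℝ) (x y : V) : ℝ :=
  (1 - et a b (y 0 - x 0)) * (1 - et a b (y 1 - x 1)) * (1 - et a b (y 2 - x 2))

lemma chi_c1 (a b : ℝ) (x : V) : ContDiff ℝ 1 (chi a b x) := by
  unfold chi
  have h : ∀ i : Fin 3, ContDiff ℝ 1 fun y : V => 1 - et a b (y i - x i) := fun i =>
    contDiff_const.sub ((et_c1 hB a b).comp (by fun_prop))
  exact ((h 0).mul (h 1)).mul (h 2)

lemma chi_der (a b : ℝ) (x y n : V) : fderiv ℝ (chi a b x) y n =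
    -(et' a b (y 0 - x 0) * n 0 * ((1 - et a b (y 1 - x 1)) * (1 - et a b (y 2 - x 2))))
    - et' a b (y 1 - x 1) * n 1 * ((1 - et a b (y 0 - x 0)) * (1 - et a b (y 2 - x 2)))
    - et' a b (y 2 - x 2) * n 2 * ((1 - et a b (y 0 - x 0)) * (1 - et a b (y 1 - x 1))) := by
  have h : ∀ i : Fin 3, HasFDerivAt (fun y : V => 1 - et a b (y i - x i))
      (-(et' a b (y i - x i) • (ContinuousLinearMap.proj i : V →L[ℝ] ℝ))) y := by
    intro i
    have h1 : HasFDerivAt (fun y : V => y i - x i) (ContinuousLinearMap.proj i : V →L[ℝ] ℝ) y :=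
      ((ContinuousLinearMap.proj i : V →L[ℝ] ℝ).hasFDerivAt).sub_const (x i)
    exact ((et_der hB a b _).comp_hasFDerivAt y h1).const_sub 1
  have h2 := ((h 0).fun_mul (h 1)).fun_mul (h 2)
  have e : chi a b x = fun y => (1 - et a b (y 0 - x 0)) * (1 - et a b (y 1 - x 1)) *
      (1 - et a b (y 2 - x 2)) := rfl
  rw [e, h2.fderiv]
  simp only [add_apply, neg_apply, smul_apply, smul_eq_mul, ContinuousLinearMap.proj_apply,
    ContinuousLinearMap.smul_apply]
  ring

lemma chi_bd {a b : ℝ} (ha : 0 < a) (hb : 0 < b) (x y n : V) :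
    |fderiv ℝ (chi a b x) y n| ≤ 4 / b * len n := by
  have hn : |n 0| + |n 1| + |n 2| ≤ 2 * len n := by
    have h1 : (|n 0| + |n 1| + |n 2|) ^ 2 ≤ (2 * len n) ^ 2 := by
      rw [mul_pow, len_sq3, Pool.Agent.Q151.CC.dot3]
      nlinarith [sq_abs (n 0), sq_abs (n 1), sq_abs (n 2), sq_nonneg (|n 0| - |n 1|),
        sq_nonneg (|n 1| - |n 2|), sq_nonneg (|n 0| - |n 2|)]
    exact abs_le_of_sq_le_sq' h1 (mul_nonneg (by norm_num) (len_nn n)) |>.2
  have hf : ∀ i j k : Fin 3, |et' a b (y i - x i) * n i *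
      ((1 - et a b (y j - x j)) * (1 - et a b (y k - x k)))| ≤ 2 / b * |n i| := by
    intro i j k
    have h1 := et'_bd hB ha hb (y i - x i)
    have h2 := et_nn hB a b (y j - x j)
    have h3 := et_nn hB a b (y k - x k)
    have h4 := et_le hB ha hb (y j - x j)
    have h5 := et_le hB ha hb (y k - x k)
    have h6 : 0 ≤ (1 - et a b (y j - x j)) * (1 - et a b (y k - x k)) :=
      mul_nonneg (by linarith) (by linarith)
    have h7 : (1 - et a b (y j - x j)) * (1 - et a b (y k - x k)) ≤ 1 :=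
      mul_le_one₀ (by linarith) (by linarith) (by linarith)
    rw [abs_mul, abs_mul, abs_of_nonneg h6]
    calc |et' a b (y i - x i)| * |n i| * ((1 - et a b (y j - x j)) * (1 - et a b (y k - x k)))
        ≤ 2 / b * |n i| * 1 := by gcongr
      _ = _ := mul_one _
  rw [chi_der hB]
  have h1 := hf 0 1 2
  have h2 := hf 1 0 2
  have h3 := hf 2 0 1
  obtain ⟨A, hA⟩ : ∃ A, A = et' a b (y 0 - x 0) * n 0 *
    ((1 - et a b (y 1 - x 1)) * (1 - et a b (y 2 - x 2))) := ⟨_, rfl⟩
  obtain ⟨B, hB'⟩ : ∃ A, A = et' a b (y 1 - x 1) * n 1 *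
    ((1 - et a b (y 0 - x 0)) * (1 - et a b (y 2 - x 2))) := ⟨_, rfl⟩
  obtain ⟨C, hC⟩ : ∃ A, A = et' a b (y 2 - x 2) * n 2 *
    ((1 - et a b (y 0 - x 0)) * (1 - et a b (y 1 - x 1))) := ⟨_, rfl⟩
  rw [← hA] at h1 ⊢
  rw [← hB'] at h2 ⊢
  rw [← hC] at h3 ⊢
  have h4 : |-A - B - C| ≤ |A| + |B| + |C| := by
    have := abs_add_three (-A) (-B) (-C)
    simp only [abs_neg] at this
    have e : -A - B - C = -A + -B + -C := by ring
    rwa [e]
  have h5 : 2 / b * |n 0| + 2 / b * |n 1| + 2 / b * |n 2| ≤ 2 / b * (2 * len n) := by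
    rw [← mul_add, ← mul_add]
    exact mul_le_mul_of_nonneg_left hn (by positivity)
  have h6 : 2 / b * (2 * len n) = 4 / b * len n := by ring
  linarith

lemma chi_nn {a b : ℝ} (ha : 0 < a) (hb : 0 < b) (x y : V) : 0 ≤ chi a b x y := by
  have h : ∀ i : Fin 3, 0 ≤ 1 - et a b (y i - x i) := fun i => by
    linarith [et_le hB ha hb (y i - x i)]
  exact mul_nonneg (mul_nonneg (h 0) (h 1)) (h 2)

lemma chi_le {a b : ℝ} (ha : 0 < a) (hb : 0 < b) (x y : V) : chi a b x y ≤ 1 := by
  have h : ∀ i : Fin 3, 0 ≤ 1 - et a b (y i - x i) := fun i => by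
    linarith [et_le hB ha hb (y i - x i)]
  have h' : ∀ i : Fin 3, 1 - et a b (y i - x i) ≤ 1 := fun i => by
    linarith [et_nn hB a b (y i - x i)]
  exact mul_le_one₀ (mul_le_one₀ (h' 0) (h 1) (h' 1)) (h 2) (h' 2)

lemma chi_one {a b : ℝ} (hb : 0 < b) {x y : V} (h : ‖y - x‖ ≤ a) : chi a b x y = 1 := by
  have h1 : ∀ i : Fin 3, et a b (y i - x i) = 0 := fun i => by
    apply et_zero hB hb
    have := norm_le_pi_norm (y - x) i
    rw [Real.norm_eq_abs, Pi.sub_apply] at this
    exact this.trans h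
  unfold chi
  rw [h1 0, h1 1, h1 2]
  norm_num

lemma chi_ne {a b : ℝ} (ha : 0 < a) (hb : 0 < b) {x y : V} (h : chi a b x y ≠ 0) :
    ‖y - x‖ < a + b := by
  have h1 : ∀ i : Fin 3, 1 - et a b (y i - x i) ≠ 0 := by
    unfold chi at h
    intro i
    have h2 := right_ne_zero_of_mul h
    have h3 := right_ne_zero_of_mul (left_ne_zero_of_mul h)
    have h4 := left_ne_zero_of_mul (left_ne_zero_of_mul h)
    fin_cases i
    · exact h4
    · exact h3
    · exact h2
  rw [pi_norm_lt_iff (by linarith)]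
  intro i
  rw [Real.norm_eq_abs, Pi.sub_apply]
  by_contra hc
  rw [not_lt] at hc
  exact h1 i (by rw [et_one hB ha hb hc, sub_self])

lemma chi_der_ne {a b : ℝ} (ha : 0 < a) (hb : 0 < b) {x y n : V}
    (h : fderiv ℝ (chi a b x) y n ≠ 0) : a ≤ ‖y - x‖ ∧ ‖y - x‖ ≤ a + b := by
  rw [chi_der hB] at h
  have hone : ∀ i : Fin 3, a + b ≤ |y i - x i| → 1 - et a b (y i - x i) = 0 := fun i hi => by
    rw [et_one hB ha hb hi, sub_self]
  have hle : ∀ i : Fin 3, |y i - x i| ≤ ‖y - x‖ := fun i => by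
    have := norm_le_pi_norm (y - x) i
    rwa [Real.norm_eq_abs, Pi.sub_apply] at this
  have key : ∀ i j k : Fin 3, (∀ l, l = i ∨ l = j ∨ l = k) → et' a b (y i - x i) * n i *
      ((1 - et a b (y j - x j)) * (1 - et a b (y k - x k))) ≠ 0 →
      a ≤ ‖y - x‖ ∧ ‖y - x‖ ≤ a + b := by
    intro i j k hl h1
    have h2 := et'_ne hB ha hb (left_ne_zero_of_mul (left_ne_zero_of_mul h1))
    have h3 := left_ne_zero_of_mul (right_ne_zero_of_mul h1)
    have h4 := right_ne_zero_of_mul (right_ne_zero_of_mul h1)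
    refine ⟨h2.1.le.trans (hle i), ?_⟩
    rw [pi_norm_le_iff_of_nonneg (by linarith)]
    intro l
    rw [Real.norm_eq_abs, Pi.sub_apply]
    rcases hl l with rfl | rfl | rfl
    · exact h2.2.le
    · by_contra hc
      exact h3 (hone _ (not_le.1 hc).le)
    · by_contra hc
      exact h4 (hone _ (not_le.1 hc).le)
  by_cases h1 : et' a b (y 0 - x 0) * n 0 *
      ((1 - et a b (y 1 - x 1)) * (1 - et a b (y 2 - x 2))) = 0
  · by_cases h2 : et' a b (y 1 - x 1) * n 1 *
        ((1 - et a b (y 0 - x 0)) * (1 - et a b (y 2 - x 2))) = 0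
    · have h3 : et' a b (y 2 - x 2) * n 2 *
          ((1 - et a b (y 0 - x 0)) * (1 - et a b (y 1 - x 1))) ≠ 0 := by
        intro h3
        exact h (by rw [h1, h2, h3]; norm_num)
      exact key 2 0 1 (by decide) h3
    · exact key 1 0 2 (by decide) h2
  · exact key 0 1 2 (by decide) h1

set_option maxHeartbeats 1600000 in
/-- VL-5 -/
theorem stmFC : StmFC := by
  intro κ ρ R r s w x f m W g hκ hκ1 hρ h hr hrs hw hws hsR
  have hκr : 0 < κ * r := by positivity
  have hs : 0 < s := by linarith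
  have hu1 : ContDiff ℝ 1 (uu κ ρ g x) := uu_c1 hB hρ h.gs
  have hw1 : ContDiff ℝ 1 (ww κ ρ g x) := ww_c1 hB hρ h.gs
  have hb8 : 0 < κ * r / 16 := by positivity
  have hbr : 0 < κ * r / 64 := by positivity
  have ha : 0 < s - w := by linarith
  have hb : 0 < 2 * w := by linarith
  have hsub : closedBall x (s + w) ⊆ closedBall x R := closedBall_subset_closedBall hsR
  obtain ⟨χ, hχ⟩ : ∃ χ : V → ℝ, χ = chi (s - w) (2 * w) x := ⟨_, rfl⟩
  have hχ1 : ContDiff ℝ 1 χ := by rw [hχ]; exact chi_c1 hB _ _ _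
  obtain ⟨F, hF⟩ : ∃ F : V → ℝ, F = fun y => st (-(κ * r / 8)) (κ * r / 16) (ww κ ρ g x y) *
    st (κ * r / 64) (κ * r / 64) (uu κ ρ g x y) * χ y := ⟨_, rfl⟩
  have hF1 : ContDiff ℝ 1 F := by
    rw [hF]
    exact (((st_c1 hB _ _).comp hw1).mul ((st_c1 hB _ _).comp hu1)).mul hχ1
  have sχ : ∀ y, χ y ≠ 0 → y ∈ closedBall x (s + w) := by
    intro y hy
    rw [hχ] at hy
    rw [mem_closedBall, dist_eq_norm]
    have := chi_ne hB ha hb hy
    linarith
  have hsupp : ∀ y, F y ≠ 0 → y ∈ closedBall x R := by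
    intro y hy
    rw [hF] at hy
    exact hsub (sχ y (right_ne_zero_of_mul hy))
  have h0 := zero_int h.wd hF1 hsupp
  obtain ⟨S, hS⟩ : ∃ S : Set V, S = Shell x s w ∩ {y | 0 < uu κ ρ g x y} := ⟨_, rfl⟩
  have hSm : MeasurableSet S := by
    rw [hS]
    refine MeasurableSet.inter ?_ (isOpen_lt continuous_const hu1.continuous).measurableSet
    exact (isClosed_le (by fun_prop) continuous_const).measurableSet
  have hSs : S ⊆ closedBall x (s + w) := by
    intro y hy
    rw [hS] at hy
    have h1 : |‖y - x‖ - s| ≤ w := hy.1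
    rw [mem_closedBall, dist_eq_norm]
    linarith [(abs_le.1 h1).2]
  have key : ∀ y ∈ closedBall x R,
      Pool.Agent.Q85.VL.pr κ ρ g x W m r y - 2 / w * S.indicator f y + 0 * m y
        - 160 / (κ * r) * (closedBall x (s + w)).indicator m y ≤ fderiv ℝ F y (W y) := by
    intro y hy
    have hf0 := f_nn h hy
    have hm0 := h.m0 y
    have du := uu_lo hB hκ hρ h x hy
    have dw := ww_lo hB hκ hρ h x hy
    obtain ⟨Du, hDu⟩ : ∃ Du, Du = fderiv ℝ (uu κ ρ g x) y (W y) := ⟨_, rfl⟩
    obtain ⟨Dw, hDw⟩ : ∃ Dw, Dw = fderiv ℝ (ww κ ρ g x) y (W y) := ⟨_, rfl⟩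
    obtain ⟨Dc, hDc⟩ : ∃ Dc, Dc = fderiv ℝ χ y (W y) := ⟨_, rfl⟩
    have du0 : 0 ≤ κ / 2 * f y := by positivity
    have dw0 : 0 ≤ κ / 4 * f y := by positivity
    obtain ⟨a, had⟩ : ∃ a, a = st (-(κ * r / 8)) (κ * r / 16) (ww κ ρ g x y) := ⟨_, rfl⟩
    obtain ⟨a', had'⟩ : ∃ a, a = st' (-(κ * r / 8)) (κ * r / 16) (ww κ ρ g x y) := ⟨_, rfl⟩
    obtain ⟨q, hqd⟩ : ∃ a, a = st (κ * r / 64) (κ * r / 64) (uu κ ρ g x y) := ⟨_, rfl⟩
    obtain ⟨q', hqd'⟩ : ∃ a, a = st' (κ * r / 64) (κ * r / 64) (uu κ ρ g x y) := ⟨_, rfl⟩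
    obtain ⟨c, hcd⟩ : ∃ c, c = χ y := ⟨_, rfl⟩
    have hDF : fderiv ℝ F y (W y) = a' * Dw * q * c + a * (q' * Du) * c + a * q * Dc := by
      have e1 := comp_der (st_der hB (-(κ * r / 8)) (κ * r / 16))
        (hw1.differentiable one_ne_zero y)
      have e2 := comp_der (st_der hB (κ * r / 64) (κ * r / 64))
        (hu1.differentiable one_ne_zero y)
      have e4 := (hχ1.differentiable one_ne_zero y).hasFDerivAt
      have e6 := (e1.fun_mul e2).fun_mul e4
      rw [hF, e6.fderiv]
      simp only [add_apply, smul_apply, smul_eq_mul, ← hDu, ← hDw, ← hDc,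
        ← had, ← had', ← hqd, ← hqd', ← hcd]
      ring
    rw [← hDu] at du
    rw [← hDw] at dw
    have a0 : 0 ≤ a := by rw [had]; exact st_nn hB _ _ _
    have a1 : a ≤ 1 := by rw [had]; exact st_le hB _ _ _
    have a0' : 0 ≤ a' := by rw [had']; exact st'_nn hB hb8 _ _
    have a1' : a' ≤ 32 / (κ * r) := by
      rw [had']
      refine (st'_le hB hb8 _ _).trans (le_of_eq ?_)
      field_simp
      norm_num
    have q0 : 0 ≤ q := by rw [hqd]; exact st_nn hB _ _ _
    have q1 : q ≤ 1 := by rw [hqd]; exact st_le hB _ _ _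
    have q0' : 0 ≤ q' := by rw [hqd']; exact st'_nn hB hbr _ _
    have q1' : q' ≤ 128 / (κ * r) := by
      rw [hqd']
      refine (st'_le hB hbr _ _).trans (le_of_eq ?_)
      field_simp
      norm_num
    have c0 : 0 ≤ c := by rw [hcd, hχ]; exact chi_nn hB ha hb _ _
    have c1 : c ≤ 1 := by rw [hcd, hχ]; exact chi_le hB ha hb _ _
    have t1 : -(32 / (κ * r) * (closedBall x (s + w)).indicator m y) ≤ (a' * q * c) * Dw := by
      refine term_lo rfl hm0 (by linarith) (by positivity) ?_ ?_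
      · calc a' * q * c ≤ a' * 1 * 1 := by gcongr
          _ = a' := by ring
          _ ≤ _ := a1'
      · intro hne
        have n2 : c ≠ 0 := right_ne_zero_of_mul hne
        rw [hcd] at n2
        exact sχ y n2
    have hsup : a * q' ≠ 0 → ‖y - x‖ ≤ s - w := by
      intro hne
      have n1 : q' ≠ 0 := right_ne_zero_of_mul hne
      have n2 : a ≠ 0 := left_ne_zero_of_mul hne
      have h1 : uu κ ρ g x y < κ * r / 32 := by
        rw [hqd'] at n1
        have := (st'_ne hB hbr n1).2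
        linarith
      have h2 : ds x ρ y < 5 / 8 * r := by
        rw [had] at n2
        exact ds_lt hκ (st_pos hB hb8 n2) h1
      have := (ds_facts hB x hρ).2.2.2.1 y
      linarith
    have t2 : a * (q' * (Du + m y)) - 128 / (κ * r) * (closedBall x (s + w)).indicator m y
        ≤ a * (q' * Du) * c := by
      by_cases hne : a * q' = 0
      · have e1 : a * (q' * (Du + m y)) = (a * q') * (Du + m y) := by ring
        have e2 : a * (q' * Du) * c = (a * q') * Du * c := by ring
        rw [e1, e2, hne]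
        have := ind_nn h.m0 (closedBall x (s + w)) y
        have h2 : 0 ≤ 128 / (κ * r) * (closedBall x (s + w)).indicator m y := by positivity
        linarith
      · have h1 := hsup hne
        have hc1 : c = 1 := by
          rw [hcd, hχ]
          exact chi_one hB hb h1
        have h5 : y ∈ closedBall x (s + w) := by
          rw [mem_closedBall, dist_eq_norm]
          linarith
        rw [indicator_of_mem h5, hc1]
        have h6 : a * q' ≤ 1 * (128 / (κ * r)) := mul_le_mul a1 q1' q0' zero_le_one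
        have h7 := mul_le_mul_of_nonneg_right h6 hm0
        have h8 : a * (q' * (Du + m y)) = a * (q' * Du) * 1 + a * q' * m y := by ring
        rw [h8]
        linarith
    have t3 : -(2 / w * S.indicator f y) ≤ a * q * Dc := by
      by_cases hne : q * Dc = 0
      · have e1 : a * q * Dc = a * (q * Dc) := by ring
        rw [e1, hne, mul_zero]
        have : 0 ≤ S.indicator f y := by
          by_cases hyS : y ∈ S
          · rw [indicator_of_mem hyS]; exact hf0
          · rw [indicator_of_notMem hyS]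
        have h2 : 0 ≤ 2 / w * S.indicator f y := by positivity
        linarith
      · have n1 : q ≠ 0 := left_ne_zero_of_mul hne
        have n2 : Dc ≠ 0 := right_ne_zero_of_mul hne
        have hyS : y ∈ S := by
          rw [hS]
          refine ⟨?_, ?_⟩
          · rw [hDc, hχ] at n2
            obtain ⟨h1, h2⟩ := chi_der_ne hB ha hb n2
            show |‖y - x‖ - s| ≤ w
            rw [abs_le]
            constructor <;> linarith
          · rw [hqd] at n1
            have := st_pos hB hbr n1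
            show 0 < uu κ ρ g x y
            linarith
        rw [indicator_of_mem hyS]
        have h1 : |Dc| ≤ 2 / w * f y := by
          rw [hDc, hχ]
          refine (chi_bd hB ha hb x y (W y)).trans ?_
          have e1 : 4 / (2 * w) = 2 / w := by
            field_simp
            norm_num
          rw [e1]
          exact mul_le_mul_of_nonneg_left (h.up y hy) (by positivity)
        have h2 := (abs_le.1 h1).1
        have h3 : a * q ≤ 1 := mul_le_one₀ a1 q0 q1
        have h4 : 0 ≤ a * q := by positivity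
        have h5 : 0 ≤ 2 / w * f y := by positivity
        nlinarith
    rw [hDF, pr_eq, ← had, ← hDu, ← hqd']
    have e8 : 160 / (κ * r) = 32 / (κ * r) + 128 / (κ * r) := by
      rw [← add_div]
      norm_num
    have e9 : a' * Dw * q * c + a * (q' * Du) * c + a * q * Dc
        = (a' * q * c) * Dw + a * (q' * Du) * c + a * q * Dc := by ring
    rw [e8, e9]
    linarith [t1, t2, t3]
  have i1 : IntegrableOn (Pool.Agent.Q85.VL.pr κ ρ g x W m r) (closedBall x R) :=
    int_cb (pr_cont hB hρ h r) x R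
  have i2 : IntegrableOn (fun y => 2 / w * S.indicator f y) (closedBall x R) :=
    ((int_cb h.fc x R).indicator hSm).const_mul _
  have i3 : IntegrableOn m (closedBall x R) := int_cb h.mc x R
  have i4 : IntegrableOn ((closedBall x (s + w)).indicator m) (closedBall x R) :=
    i3.indicator isClosed_closedBall.measurableSet
  have hint : ∫ y in closedBall x R, (Pool.Agent.Q85.VL.pr κ ρ g x W m r y
      - 2 / w * S.indicator f y + 0 * m y
        - 160 / (κ * r) * (closedBall x (s + w)).indicator m y) ≤ 0 := by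
    refine le_trans ?_ h0.le
    exact setIntegral_mono_on (((i1.sub i2).add (i3.const_mul _)).sub (i4.const_mul _))
      (int_cb (fderiv_W_cont hF1 h.wd.cont) x R) isClosed_closedBall.measurableSet key
  rw [int4 _ _ i1 i2 i3 i4, integral_const_mul, int_ind' isClosed_closedBall.measurableSet hsub,
    int_ind' hSm (hSs.trans hsub)] at hint
  have hm1 : 0 ≤ ∫ y in closedBall x (s + w), m y :=
    setIntegral_nonneg isClosed_closedBall.measurableSet fun y _ => h.m0 y
  have e1 : 160 / (κ * r) * ∫ y in closedBall x (s + w), m y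
      ≤ 256 / (κ * r) * ∫ y in closedBall x (s + w), m y :=
    mul_le_mul_of_nonneg_right (div_le_div_of_nonneg_right (by norm_num) hκr.le) hm1
  unfold AA
  rw [← hS]
  linarith

end

end Pool.Agent.Helper33VL
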