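import Pool.Agent.Helper33VL.TF

/-!
Project VL, parts VL-2, VL-3, VL-4 (helper33).
-/

set_option autoImplicit false

open MeasureTheory Set Metric
open scoped ContDiff
open H459R3.NS Pool.Agent.W268.NS Pool.Agent.Q67.VD

namespace Pool.Agent.Helper33VL

open Pool.Agent.Q85.CC Pool.Agent.Q85.CL Pool.Agent.Q85.VL
open Pool.Agent.Q151.CC (WD coord_sq)

/-- half the square of the positive part -/
noncomputable def hs (s : ℝ) : ℝ := (max 0 s) ^ 2 / 2

lemma hs_der (s : ℝ) : HasDerivAt hs (max 0 s) s := by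
  unfold hs
  rcases lt_trichotomy s 0 with h | h | h
  · have h1 : (fun s : ℝ => (max 0 s) ^ 2 / 2) =ᶠ[nhds s] fun _ => 0 := by
      filter_upwards [gt_mem_nhds h] with t ht
      rw [max_eq_left ht.le]
      norm_num
    rw [max_eq_left h.le]
    exact (hasDerivAt_const s (0 : ℝ)).congr_of_eventuallyEq h1
  · subst h
    rw [max_self]
    rw [hasDerivAt_iff_isLittleO]
    have h1 : (fun x' : ℝ => max 0 x' ^ 2 / 2 - max 0 0 ^ 2 / 2 - (x' - 0) • (0 : ℝ))
        = fun x' => max 0 x' ^ 2 / 2 := by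
      funext t
      simp
    rw [h1]
    have h2 : (fun x' : ℝ => x' - 0) = fun x' => x' := by funext t; simp
    rw [h2]
    refine Asymptotics.IsBigO.trans_isLittleO (g := fun t : ℝ => t ^ 2) ?_ ?_
    · refine Asymptotics.IsBigO.of_bound 1 (Filter.Eventually.of_forall fun t => ?_)
      rw [Real.norm_eq_abs, Real.norm_eq_abs, abs_of_nonneg (by positivity),
        abs_of_nonneg (by positivity)]
      rcases le_total t 0 with ht | ht
      · rw [max_eq_left ht]
        nlinarith [sq_nonneg t]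
      · rw [max_eq_right ht]
        nlinarith [sq_nonneg t]
    · have := Asymptotics.isLittleO_pow_id (𝕜 := ℝ) (n := 2) one_lt_two
      simpa using this
  · have h1 : (fun s : ℝ => (max 0 s) ^ 2 / 2) =ᶠ[nhds s] fun s => s ^ 2 / 2 := by
      filter_upwards [lt_mem_nhds h] with t ht
      rw [max_eq_right ht.le]
    rw [max_eq_right h.le]
    have h2 : HasDerivAt (fun s : ℝ => s ^ 2 / 2) s s := by
      have := (hasDerivAt_pow 2 s).div_const 2
      simpa using this
    exact h2.congr_of_eventuallyEq h1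

lemma hs_c1 : ContDiff ℝ 1 hs := by
  rw [contDiff_one_iff_deriv]
  refine ⟨fun s => (hs_der s).differentiableAt, ?_⟩
  have : deriv hs = fun s => max 0 s := funext fun s => (hs_der s).deriv
  rw [this]
  fun_prop

/-- VL-2 -/
theorem stmUB (hB : StmBas) : StmUB := by
  intro κ ρ R r x f m W g hκ hκ1 hρ h hr hrR
  have hbr : 0 < κ * r / 64 := by positivity
  have hb8 : 0 < κ * r / 16 := by positivity
  have hsub : closedBall x r ⊆ closedBall x R := closedBall_subset_closedBall hrR
  have hfm : Continuous fun y => 2 * f y + m y := (continuous_const.mul h.fc).add h.mc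
  unfold AA
  rw [← int_ind' (T := closedBall x R) isClosed_closedBall.measurableSet hsub,
    ← integral_const_mul]
  refine setIntegral_mono_on (int_cb (pr_cont hB hρ h r) x R)
    (((int_cb hfm x R).indicator isClosed_closedBall.measurableSet).const_mul _)
    isClosed_closedBall.measurableSet fun y hy => ?_
  rw [pr_eq]
  have hf0 := f_nn h hy
  have hm0 := h.m0 y
  have du := uu_lo hB hκ hρ h x hy
  have du2 := uu_up hB hκ hκ1 hρ h x hy
  have du0 : 0 ≤ κ / 2 * f y := by positivity
  obtain ⟨Du, hDu⟩ : ∃ Du, Du = fderiv ℝ (uu κ ρ g x) y (W y) := ⟨_, rfl⟩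
  obtain ⟨a, had⟩ : ∃ a, a = st (-(κ * r / 8)) (κ * r / 16) (ww κ ρ g x y) := ⟨_, rfl⟩
  obtain ⟨p', hpd'⟩ : ∃ a, a = st' (κ * r / 64) (κ * r / 64) (uu κ ρ g x y) := ⟨_, rfl⟩
  rw [← hDu] at du du2
  rw [← hDu, ← had, ← hpd']
  have a0 : 0 ≤ a := by rw [had]; exact st_nn hB _ _ _
  have a1 : a ≤ 1 := by rw [had]; exact st_le hB _ _ _
  have p0' : 0 ≤ p' := by rw [hpd']; exact st'_nn hB hbr _ _
  have p1' : p' ≤ 128 / (κ * r) := by
    rw [hpd']
    refine (st'_le hB hbr _ _).trans (le_of_eq ?_)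
    field_simp
    norm_num
  by_cases hne : a * p' = 0
  · have e1 : a * (p' * (Du + m y)) = (a * p') * (Du + m y) := by ring
    rw [e1, hne, zero_mul]
    refine mul_nonneg (by positivity) ?_
    by_cases hyr : y ∈ closedBall x r
    · rw [indicator_of_mem hyr]
      positivity
    · rw [indicator_of_notMem hyr]
  · have n1 : p' ≠ 0 := right_ne_zero_of_mul hne
    have n2 : a ≠ 0 := left_ne_zero_of_mul hne
    have h1 : uu κ ρ g x y < κ * r / 32 := by
      rw [hpd'] at n1
      have := (st'_ne hB hbr n1).2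
      linarith
    have h2 : ds x ρ y < 5 / 8 * r := by
      rw [had] at n2
      exact ds_lt hκ (st_pos hB hb8 n2) h1
    have h5 : y ∈ closedBall x r := by
      rw [mem_closedBall, dist_eq_norm]
      have := (ds_facts hB x hρ).2.2.2.1 y
      linarith
    rw [indicator_of_mem h5]
    have h6 : a * p' ≤ 1 * (128 / (κ * r)) := mul_le_mul a1 p1' p0' zero_le_one
    rw [one_mul] at h6
    calc a * (p' * (Du + m y)) = (a * p') * (Du + m y) := by ring
      _ ≤ (a * p') * (2 * f y + m y) :=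
        mul_le_mul_of_nonneg_left (by linarith) (mul_nonneg a0 p0')
      _ ≤ 128 / (κ * r) * (2 * f y + m y) := mul_le_mul_of_nonneg_right h6 (by positivity)

set_option maxHeartbeats 1600000 in
/-- VL-3 -/
theorem stmCmp (hB : StmBas) : StmCmp := by
  intro κ ρ R r r' x f m W g hκ hκ1 hρ h hr' hrr hrR
  have hr : 0 < r := by linarith
  have hκr : 0 < κ * r := by positivity
  have hκr' : 0 < κ * r' := by positivity
  have hκrr : κ * r' ≤ κ * r / 2 := by
    have := mul_le_mul_of_nonneg_left hrr hκ.le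
    linarith
  have hu1 : ContDiff ℝ 1 (uu κ ρ g x) := uu_c1 hB hρ h.gs
  have hw1 : ContDiff ℝ 1 (ww κ ρ g x) := ww_c1 hB hρ h.gs
  have hb8 : 0 < κ * r' / 16 := by positivity
  have hb64 : 0 < κ * r' / 64 := by positivity
  have hbr : 0 < κ * r / 64 := by positivity
  have hsub : closedBall x r ⊆ closedBall x R := closedBall_subset_closedBall hrR
  obtain ⟨F, hF⟩ : ∃ F : V → ℝ, F = fun y => st (-(κ * r' / 8)) (κ * r' / 16) (ww κ ρ g x y) *
    (st (κ * r' / 64) (κ * r' / 64) (uu κ ρ g x y)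
      - st (κ * r / 64) (κ * r / 64) (uu κ ρ g x y)) := ⟨_, rfl⟩
  have hF1 : ContDiff ℝ 1 F := by
    rw [hF]
    exact ((st_c1 hB _ _).comp hw1).mul
      (((st_c1 hB _ _).comp hu1).sub ((st_c1 hB _ _).comp hu1))
  have sAQ : ∀ y, -(κ * r' / 8) < ww κ ρ g x y → uu κ ρ g x y < κ * r / 32 →
      y ∈ closedBall x r := by
    intro y h1 h2
    have h3 := ds_lt (r := r) hκ (by linarith : -(κ * r / 8) < ww κ ρ g x y) h2
    rw [mem_closedBall, dist_eq_norm]
    linarith [(ds_facts hB x hρ).2.2.2.1 y]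
  have hPQ : ∀ s, st (κ * r / 64) (κ * r / 64) s ≤ st (κ * r' / 64) (κ * r' / 64) s := fun s =>
    st_ge hB hbr hb64 (by linarith)
  have hQ : ∀ s, st (κ * r' / 64) (κ * r' / 64) s - st (κ * r / 64) (κ * r / 64) s ≠ 0 →
      s < κ * r / 32 := by
    intro s hs
    by_contra hc
    rw [not_lt] at hc
    apply hs
    rw [st_one hB hbr (by linarith), st_one hB hb64 (by linarith), sub_self]
  have hsupp : ∀ y, F y ≠ 0 → y ∈ closedBall x R := by
    intro y hy
    rw [hF] at hy
    exact hsub (sAQ y (st_pos hB hb8 (left_ne_zero_of_mul hy)) (hQ _ (right_ne_zero_of_mul hy)))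
  have h0 := zero_int h.wd hF1 hsupp
  have key : ∀ y ∈ closedBall x R,
      Pool.Agent.Q85.VL.pr κ ρ g x W m r' y - Pool.Agent.Q85.VL.pr κ ρ g x W m r y
        + 0 * m y - 160 / (κ * r') * (closedBall x r).indicator m y ≤ fderiv ℝ F y (W y) := by
    intro y hy
    have hf0 := f_nn h hy
    have hm0 := h.m0 y
    have du := uu_lo hB hκ hρ h x hy
    have dw := ww_lo hB hκ hρ h x hy
    obtain ⟨Du, hDu⟩ : ∃ Du, Du = fderiv ℝ (uu κ ρ g x) y (W y) := ⟨_, rfl⟩
    obtain ⟨Dw, hDw⟩ : ∃ Dw, Dw = fderiv ℝ (ww κ ρ g x) y (W y) := ⟨_, rfl⟩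
    have du0 : 0 ≤ κ / 2 * f y := by positivity
    have dw0 : 0 ≤ κ / 4 * f y := by positivity
    obtain ⟨a, had⟩ : ∃ a, a = st (-(κ * r' / 8)) (κ * r' / 16) (ww κ ρ g x y) := ⟨_, rfl⟩
    obtain ⟨a', had'⟩ : ∃ a, a = st' (-(κ * r' / 8)) (κ * r' / 16) (ww κ ρ g x y) := ⟨_, rfl⟩
    obtain ⟨p, hpd⟩ : ∃ a, a = st (κ * r' / 64) (κ * r' / 64) (uu κ ρ g x y) := ⟨_, rfl⟩
    obtain ⟨p', hpd'⟩ : ∃ a, a = st' (κ * r' / 64) (κ * r' / 64) (uu κ ρ g x y) := ⟨_, rfl⟩
    obtain ⟨q, hqd⟩ : ∃ a, a = st (κ * r / 64) (κ * r / 64) (uu κ ρ g x y) := ⟨_, rfl⟩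
    obtain ⟨q', hqd'⟩ : ∃ a, a = st' (κ * r / 64) (κ * r / 64) (uu κ ρ g x y) := ⟨_, rfl⟩
    obtain ⟨T, hTd⟩ : ∃ a, a = st (-(κ * r / 8)) (κ * r / 16) (ww κ ρ g x y) := ⟨_, rfl⟩
    have hDF : fderiv ℝ F y (W y) = a' * Dw * (p - q) + a * (p' * Du - q' * Du) := by
      have e1 := comp_der (st_der hB (-(κ * r' / 8)) (κ * r' / 16))
        (hw1.differentiable one_ne_zero y)
      have e2 := comp_der (st_der hB (κ * r' / 64) (κ * r' / 64))
        (hu1.differentiable one_ne_zero y)
      have e4 := comp_der (st_der hB (κ * r / 64) (κ * r / 64)) (hu1.differentiable one_ne_zero y)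
      have e6 := e1.fun_mul (e2.fun_sub e4)
      rw [hF, e6.fderiv]
      simp only [add_apply, sub_apply, smul_apply, smul_eq_mul, ← hDu, ← hDw,
        ← had, ← had', ← hpd, ← hpd', ← hqd, ← hqd']
      ring
    rw [← hDu] at du
    rw [← hDw] at dw
    have a0 : 0 ≤ a := by rw [had]; exact st_nn hB _ _ _
    have a1 : a ≤ 1 := by rw [had]; exact st_le hB _ _ _
    have a0' : 0 ≤ a' := by rw [had']; exact st'_nn hB hb8 _ _
    have a1' : a' ≤ 32 / (κ * r') := by
      rw [had']
      refine (st'_le hB hb8 _ _).trans (le_of_eq ?_)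
      field_simp
      norm_num
    have p0 : 0 ≤ p := by rw [hpd]; exact st_nn hB _ _ _
    have p1 : p ≤ 1 := by rw [hpd]; exact st_le hB _ _ _
    have p0' : 0 ≤ p' := by rw [hpd']; exact st'_nn hB hb64 _ _
    have p1' : p' ≤ 128 / (κ * r') := by
      rw [hpd']
      refine (st'_le hB hb64 _ _).trans (le_of_eq ?_)
      field_simp
      norm_num
    have q0 : 0 ≤ q := by rw [hqd]; exact st_nn hB _ _ _
    have q0' : 0 ≤ q' := by rw [hqd']; exact st'_nn hB hbr _ _
    have hpq : q ≤ p := by rw [hpd, hqd]; exact hPQ _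
    have haT : a ≤ T := by rw [had, hTd]; exact st_ge hB hb8 (by positivity) (by linarith)
    -- the terms
    have t1 : -(32 / (κ * r') * (closedBall x r).indicator m y) ≤ (a' * (p - q)) * Dw := by
      refine term_lo rfl hm0 (by linarith) (mul_nonneg a0' (sub_nonneg.2 hpq)) ?_ ?_
      · calc a' * (p - q) ≤ a' * 1 := mul_le_mul_of_nonneg_left (by linarith) a0'
          _ = a' := by ring
          _ ≤ _ := a1'
      · intro hne
        have n2 : a' ≠ 0 := left_ne_zero_of_mul hne
        have n1 : p - q ≠ 0 := right_ne_zero_of_mul hne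
        rw [had'] at n2
        rw [hpd, hqd] at n1
        exact sAQ y (st'_ne hB hb8 n2).1 (hQ _ n1)
    have t2 : -(128 / (κ * r') * (closedBall x r).indicator m y) ≤ (a * p') * (-m y) := by
      refine term_lo rfl hm0 le_rfl (mul_nonneg a0 p0') ?_ ?_
      · calc a * p' ≤ 1 * p' := mul_le_mul_of_nonneg_right a1 p0'
          _ = p' := by ring
          _ ≤ _ := p1'
      · intro hne
        have n2 : a ≠ 0 := left_ne_zero_of_mul hne
        have n1 : p' ≠ 0 := right_ne_zero_of_mul hne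
        rw [had] at n2
        rw [hpd'] at n1
        have := (st'_ne hB hb64 n1).2
        exact sAQ y (st_pos hB hb8 n2) (by linarith)
    have t4 : a * (q' * Du) ≤ T * (q' * (Du + m y)) := by
      have h2 : 0 ≤ q' * (Du + m y) := mul_nonneg q0' (by linarith)
      have h3 : q' * Du ≤ q' * (Du + m y) := mul_le_mul_of_nonneg_left (by linarith) q0'
      exact (mul_le_mul_of_nonneg_left h3 a0).trans (mul_le_mul_of_nonneg_right haT h2)
    rw [hDF, pr_eq, pr_eq, ← had, ← hpd', ← hDu, ← hTd, ← hqd']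
    have e8 : 160 / (κ * r') = 32 / (κ * r') + 128 / (κ * r') := by
      rw [← add_div]
      norm_num
    have e9 : a' * Dw * (p - q) + a * (p' * Du - q' * Du) = (a' * (p - q)) * Dw + (a * p') * (-m y)
        + a * (p' * (Du + m y)) - a * (q' * Du) := by ring
    rw [e8, e9]
    linarith [t1, t2, t4]
  have i1 : IntegrableOn (Pool.Agent.Q85.VL.pr κ ρ g x W m r') (closedBall x R) :=
    int_cb (pr_cont hB hρ h r') x R
  have i2 : IntegrableOn (Pool.Agent.Q85.VL.pr κ ρ g x W m r) (closedBall x R) :=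
    int_cb (pr_cont hB hρ h r) x R
  have i3 : IntegrableOn m (closedBall x R) := int_cb h.mc x R
  have i4 : IntegrableOn ((closedBall x r).indicator m) (closedBall x R) :=
    i3.indicator isClosed_closedBall.measurableSet
  have hint : ∫ y in closedBall x R, (Pool.Agent.Q85.VL.pr κ ρ g x W m r' y
      - Pool.Agent.Q85.VL.pr κ ρ g x W m r y + 0 * m y
        - 160 / (κ * r') * (closedBall x r).indicator m y) ≤ 0 := by
    refine le_trans ?_ h0.le
    exact setIntegral_mono_on (((i1.sub i2).add (i3.const_mul _)).sub (i4.const_mul _))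
      (int_cb (fderiv_W_cont hF1 h.wd.cont) x R) isClosed_closedBall.measurableSet key
  rw [int4 _ _ i1 i2 i3 i4, int_ind' isClosed_closedBall.measurableSet hsub] at hint
  have hm1 : 0 ≤ ∫ y in closedBall x r, m y :=
    setIntegral_nonneg isClosed_closedBall.measurableSet fun y _ => h.m0 y
  unfold AA
  have e1 : 160 / (κ * r') * ∫ y in closedBall x r, m y
      ≤ 256 / (κ * r') * ∫ y in closedBall x r, m y :=
    mul_le_mul_of_nonneg_right (div_le_div_of_nonneg_right (by norm_num) hκr'.le) hm1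
  linarith

set_option maxHeartbeats 1600000 in
/-- VL-4 -/
theorem stmLB (hB : StmBas) : StmLB := by
  intro κ ρ R r x f m W g hκ hκ1 hρ h hρr hrR
  have hρr' : 128 * ρ ≤ κ * r := by
    have := mul_le_mul_of_nonneg_left hρr hκ.le
    have e : κ * (128 / κ * ρ) = 128 * ρ := by field_simp
    rwa [e] at this
  have hκr : 0 < κ * r := by linarith
  have hr : 0 < r := by
    by_contra hc
    exact absurd hκr (not_lt.2 (mul_nonpos_of_nonneg_of_nonpos hκ.le (not_lt.1 hc)))
  have hρr2 : ρ ≤ r := by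
    have : κ * r ≤ 1 * r := mul_le_mul_of_nonneg_right hκ1 hr.le
    linarith
  have hu1 : ContDiff ℝ 1 (uu κ ρ g x) := uu_c1 hB hρ h.gs
  have hw1 : ContDiff ℝ 1 (ww κ ρ g x) := ww_c1 hB hρ h.gs
  have hb8 : 0 < κ * r / 16 := by positivity
  have hbr : 0 < κ * r / 64 := by positivity
  have hsub : closedBall x r ⊆ closedBall x R := closedBall_subset_closedBall hrR
  have hsubρ : closedBall x ρ ⊆ closedBall x r := closedBall_subset_closedBall hρr2
  obtain ⟨F, hF⟩ : ∃ F : V → ℝ, F = fun y => hs (ww κ ρ g x y + κ * r / 8) *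
    (1 - st (κ * r / 64) (κ * r / 64) (uu κ ρ g x y)) := ⟨_, rfl⟩
  have hF1 : ContDiff ℝ 1 F := by
    rw [hF]
    exact (hs_c1.comp (hw1.add contDiff_const)).mul (contDiff_const.sub ((st_c1 hB _ _).comp hu1))
  have sAQ : ∀ y, -(κ * r / 8) < ww κ ρ g x y → uu κ ρ g x y < κ * r / 32 →
      y ∈ closedBall x r := by
    intro y h1 h2
    have h3 := ds_lt (r := r) hκ h1 h2
    rw [mem_closedBall, dist_eq_norm]
    linarith [(ds_facts hB x hρ).2.2.2.1 y]
  have sQ : ∀ y, 1 - st (κ * r / 64) (κ * r / 64) (uu κ ρ g x y) ≠ 0 →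
      uu κ ρ g x y < κ * r / 32 := by
    intro y hy
    have h1 : st (κ * r / 64) (κ * r / 64) (uu κ ρ g x y) ≠ 1 := fun h0 => hy (by rw [h0]; ring)
    have := st_lt hB hbr h1
    linarith
  have shs : ∀ y, hs (ww κ ρ g x y + κ * r / 8) ≠ 0 → -(κ * r / 8) < ww κ ρ g x y := by
    intro y hy
    by_contra hc
    apply hy
    unfold hs
    rw [max_eq_left (by linarith)]
    norm_num
  have hsupp : ∀ y, F y ≠ 0 → y ∈ closedBall x R := by
    intro y hy
    rw [hF] at hy
    exact hsub (sAQ y (shs y (left_ne_zero_of_mul hy)) (sQ y (right_ne_zero_of_mul hy)))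
  have h0 := zero_int h.wd hF1 hsupp
  -- near `x`
  have f2 : ∀ y ∈ closedBall x ρ, uu κ ρ g x y ≤ κ * r / 64 ∧ -(κ * r / 16) ≤ ww κ ρ g x y := by
    intro y hy
    rw [mem_closedBall, dist_eq_norm] at hy
    have e1 := (len_le_norm' (y - x)).trans (mul_le_mul_of_nonneg_left hy (by norm_num))
    have e2 := abs_le.1 (h.lip y x)
    obtain ⟨k1, k2, k3, k4, k5, -⟩ := ds_facts hB x hρ
    have e4 := k5 y hy
    have e5 := k2 y
    have e7 : κ * ds x ρ y ≤ 1 * (2 * ρ) := by nlinarith
    have e8 : 0 ≤ κ * ds x ρ y := mul_nonneg hκ.le (by linarith)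
    constructor
    · unfold uu
      linarith
    · unfold ww
      linarith
  have key : ∀ y ∈ closedBall x R,
      2 * κ * ρ * (closedBall x ρ).indicator f y
        - (κ * r / 8) ^ 2 * Pool.Agent.Q85.VL.pr κ ρ g x W m r y + 0 * m y
        - κ * r / 4 * (closedBall x r).indicator m y ≤ fderiv ℝ F y (W y) := by
    intro y hy
    have hf0 := f_nn h hy
    have hm0 := h.m0 y
    have du := uu_lo hB hκ hρ h x hy
    have dw := ww_lo hB hκ hρ h x hy
    obtain ⟨Du, hDu⟩ : ∃ Du, Du = fderiv ℝ (uu κ ρ g x) y (W y) := ⟨_, rfl⟩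
    obtain ⟨Dw, hDw⟩ : ∃ Dw, Dw = fderiv ℝ (ww κ ρ g x) y (W y) := ⟨_, rfl⟩
    have du0 : 0 ≤ κ / 2 * f y := by positivity
    have dw0 : 0 ≤ κ / 4 * f y := by positivity
    obtain ⟨q, hqd⟩ : ∃ a, a = st (κ * r / 64) (κ * r / 64) (uu κ ρ g x y) := ⟨_, rfl⟩
    obtain ⟨q', hqd'⟩ : ∃ a, a = st' (κ * r / 64) (κ * r / 64) (uu κ ρ g x y) := ⟨_, rfl⟩
    obtain ⟨T, hTd⟩ : ∃ a, a = st (-(κ * r / 8)) (κ * r / 16) (ww κ ρ g x y) := ⟨_, rfl⟩
    obtain ⟨G, hGd⟩ : ∃ a, a = hs (ww κ ρ g x y + κ * r / 8) := ⟨_, rfl⟩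
    obtain ⟨G', hGd'⟩ : ∃ a, a = max 0 (ww κ ρ g x y + κ * r / 8) := ⟨_, rfl⟩
    have hDF : fderiv ℝ F y (W y) = G' * Dw * (1 - q) - G * (q' * Du) := by
      have e1 : HasFDerivAt (fun y => hs (ww κ ρ g x y + κ * r / 8))
          ((max 0 (ww κ ρ g x y + κ * r / 8)) • fderiv ℝ (ww κ ρ g x) y) y :=
        (hs_der _).comp_hasFDerivAt y
          ((hw1.differentiable one_ne_zero y).hasFDerivAt.add_const (κ * r / 8))
      have e4 := comp_der (st_der hB (κ * r / 64) (κ * r / 64)) (hu1.differentiable one_ne_zero y)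
      have e6 := e1.fun_mul (e4.const_sub 1)
      rw [hF, e6.fderiv]
      simp only [add_apply, neg_apply, smul_apply, smul_eq_mul, ← hDu, ← hDw,
        ← hGd, ← hGd', ← hqd, ← hqd']
      ring
    rw [← hDu] at du
    rw [← hDw] at dw
    have q0 : 0 ≤ q := by rw [hqd]; exact st_nn hB _ _ _
    have q1 : q ≤ 1 := by rw [hqd]; exact st_le hB _ _ _
    have q0' : 0 ≤ q' := by rw [hqd']; exact st'_nn hB hbr _ _
    have T0 : 0 ≤ T := by rw [hTd]; exact st_nn hB _ _ _
    have G0' : 0 ≤ G' := by rw [hGd']; exact le_max_left _ _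
    have G0 : 0 ≤ G := by rw [hGd]; unfold hs; positivity
    have sq : 1 - q ≠ 0 → uu κ ρ g x y < κ * r / 32 := by
      intro h1
      apply sQ y
      rwa [← hqd]
    have sG : G' ≠ 0 → -(κ * r / 8) < ww κ ρ g x y := by
      intro h1
      by_contra hc
      apply h1
      rw [hGd']
      exact max_eq_left (by linarith)
    have t3 : 2 * κ * ρ * (closedBall x ρ).indicator f y
        - κ * r / 4 * (closedBall x r).indicator m y ≤ G' * (1 - q) * Dw := by
      obtain ⟨P, hP⟩ : ∃ P, P = G' * (1 - q) := ⟨_, rfl⟩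
      have hP0 : 0 ≤ P := by
        rw [hP]
        exact mul_nonneg G0' (sub_nonneg.2 q1)
      have hP1 : P ≤ κ * r / 4 := by
        by_cases hPz : P = 0
        · rw [hPz]
          positivity
        · rw [hP] at hPz
          have n1 := sq (right_ne_zero_of_mul hPz)
          have h1 : ww κ ρ g x y ≤ uu κ ρ g x y := by
            have e1 := uw κ ρ g x y
            have e2 := (ds_facts hB x hρ).2.1 y
            have e3 : 0 ≤ κ / 4 * ds x ρ y := mul_nonneg (by positivity) (by linarith)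
            linarith
          have h2 : G' ≤ κ * r / 4 := by
            rw [hGd']
            exact max_le (by positivity) (by linarith)
          rw [hP]
          calc G' * (1 - q) ≤ G' * 1 := mul_le_mul_of_nonneg_left (by linarith) G0'
            _ = G' := by ring
            _ ≤ _ := h2
      have hPs : P ≠ 0 → y ∈ closedBall x r := by
        intro hne
        rw [hP] at hne
        exact sAQ y (sG (left_ne_zero_of_mul hne)) (sq (right_ne_zero_of_mul hne))
      have e1 : G' * (1 - q) * Dw = P * (Dw - κ / 4 * f y) + P * (κ / 4 * f y) := by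
        rw [hP]
        ring
      have e2 := term_lo (M := m) (S := closedBall x r) rfl hm0
        (by linarith : -m y ≤ Dw - κ / 4 * f y) hP0 hP1 hPs
      have e3 : 2 * κ * ρ * (closedBall x ρ).indicator f y ≤ P * (κ / 4 * f y) := by
        by_cases hyz : y ∈ closedBall x ρ
        · rw [indicator_of_mem hyz]
          obtain ⟨i1, i2⟩ := f2 y hyz
          have j2 : q = 0 := by
            rw [hqd]
            exact st_zero hB hbr i1
          have j3 : 8 * ρ ≤ P := by
            rw [hP, j2, hGd']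
            have := le_max_right 0 (ww κ ρ g x y + κ * r / 8)
            linarith
          calc 2 * κ * ρ * f y = 8 * ρ * (κ / 4 * f y) := by ring
            _ ≤ P * (κ / 4 * f y) := mul_le_mul_of_nonneg_right j3 (by positivity)
        · rw [indicator_of_notMem hyz, mul_zero]
          positivity
      rw [e1]
      linarith
    have t4 : G * (q' * Du) ≤ (κ * r / 8) ^ 2 * (T * (q' * (Du + m y))) := by
      have h2 : 0 ≤ q' * (Du + m y) := mul_nonneg q0' (by linarith)
      have h3 : q' * Du ≤ q' * (Du + m y) := mul_le_mul_of_nonneg_left (by linarith) q0'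
      by_cases hq' : q' = 0
      · rw [hq']
        simp
      have n1 : uu κ ρ g x y < κ * r / 32 := by
        rw [hqd'] at hq'
        have := (st'_ne hB hbr hq').2
        linarith
      have h1 : ww κ ρ g x y ≤ uu κ ρ g x y := by
        have e1 := uw κ ρ g x y
        have e2 := (ds_facts hB x hρ).2.1 y
        have e3 : 0 ≤ κ / 4 * ds x ρ y := mul_nonneg (by positivity) (by linarith)
        linarith
      have hGT : G ≤ (κ * r / 8) ^ 2 * T := by
        rw [hGd, hTd]
        unfold hs st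
        obtain ⟨s, hsd⟩ : ∃ s, s = (ww κ ρ g x y - -(κ * r / 8)) / (κ * r / 16) := ⟨_, rfl⟩
        rw [← hsd]
        have e1 : ww κ ρ g x y + κ * r / 8 = κ * r / 16 * s := by
          rw [hsd]
          field_simp
          ring
        rw [e1]
        have hs52 : s ≤ 5 / 2 := by
          rw [hsd, div_le_iff₀ hb8]
          linarith
        rcases le_or_gt s 0 with hs0 | hs0
        · rw [max_eq_left (mul_nonpos_of_nonneg_of_nonpos hb8.le hs0)]
          have h9 : 0 ≤ (κ * r / 8) ^ 2 * stp s := mul_nonneg (by positivity) (hB.2.2.2.2.1 s).1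
          simpa using h9
        · rw [max_eq_right (mul_nonneg hb8.le hs0.le)]
          rcases le_or_gt s 1 with hs1 | hs1
          · unfold stp
            rw [min_eq_right hs1, max_eq_right hs0.le]
            have e2 : (κ * r / 16 * s) ^ 2 / 2 = (κ * r) ^ 2 / 512 * s ^ 2 := by ring
            have e3 : (κ * r / 8) ^ 2 * (3 * s ^ 2 - 2 * s ^ 3)
                = (κ * r) ^ 2 / 64 * (s ^ 2 * (3 - 2 * s)) := by ring
            rw [e2, e3]
            have e4 : s ^ 2 ≤ s ^ 2 * (3 - 2 * s) := by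
              have : s ^ 2 * 1 ≤ s ^ 2 * (3 - 2 * s) :=
                mul_le_mul_of_nonneg_left (by linarith) (by positivity)
              linarith
            have e5 : 0 ≤ s ^ 2 := by positivity
            have e6 : 0 ≤ (κ * r) ^ 2 := by positivity
            calc (κ * r) ^ 2 / 512 * s ^ 2 ≤ (κ * r) ^ 2 / 64 * s ^ 2 := by gcongr; norm_num
              _ ≤ _ := mul_le_mul_of_nonneg_left e4 (by positivity)
          · rw [hB.2.2.2.2.2.2.1 s hs1.le, mul_one]
            have e2 : s ^ 2 ≤ (5 / 2) ^ 2 := pow_le_pow_left₀ hs0.le hs52 2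
            have e6 : 0 ≤ (κ * r) ^ 2 := by positivity
            have e7 : (κ * r / 16 * s) ^ 2 / 2 = (κ * r) ^ 2 / 512 * s ^ 2 := by ring
            rw [e7]
            calc (κ * r) ^ 2 / 512 * s ^ 2 ≤ (κ * r) ^ 2 / 512 * (5 / 2) ^ 2 := by gcongr
              _ ≤ _ := by nlinarith
      calc G * (q' * Du) ≤ G * (q' * (Du + m y)) := mul_le_mul_of_nonneg_left h3 G0
        _ ≤ (κ * r / 8) ^ 2 * T * (q' * (Du + m y)) := mul_le_mul_of_nonneg_right hGT h2
        _ = _ := by ring
    rw [hDF, pr_eq, ← hDu, ← hTd, ← hqd']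
    have e9 : G' * Dw * (1 - q) - G * (q' * Du) = G' * (1 - q) * Dw - G * (q' * Du) := by ring
    rw [e9]
    linarith [t3, t4]
  have i1 : IntegrableOn (fun y => 2 * κ * ρ * (closedBall x ρ).indicator f y)
      (closedBall x R) :=
    ((int_cb h.fc x R).indicator isClosed_closedBall.measurableSet).const_mul _
  have i2 : IntegrableOn (fun y => (κ * r / 8) ^ 2 * Pool.Agent.Q85.VL.pr κ ρ g x W m r y)
      (closedBall x R) := (int_cb (pr_cont hB hρ h r) x R).const_mul _
  have i3 : IntegrableOn m (closedBall x R) := int_cb h.mc x R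
  have i4 : IntegrableOn ((closedBall x r).indicator m) (closedBall x R) :=
    i3.indicator isClosed_closedBall.measurableSet
  have hint : ∫ y in closedBall x R, (2 * κ * ρ * (closedBall x ρ).indicator f y
        - (κ * r / 8) ^ 2 * Pool.Agent.Q85.VL.pr κ ρ g x W m r y + 0 * m y
        - κ * r / 4 * (closedBall x r).indicator m y) ≤ 0 := by
    refine le_trans ?_ h0.le
    exact setIntegral_mono_on (((i1.sub i2).add (i3.const_mul _)).sub (i4.const_mul _))
      (int_cb (fderiv_W_cont hF1 h.wd.cont) x R) isClosed_closedBall.measurableSet key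
  rw [int4 _ _ i1 i2 i3 i4, integral_const_mul, integral_const_mul,
    int_ind' isClosed_closedBall.measurableSet hsub,
    int_ind' isClosed_closedBall.measurableSet (hsubρ.trans hsub)] at hint
  unfold AA
  linarith

end Pool.Agent.Helper33VL
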