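import Pool.Agent.Helper33VL.FC

/-!
Project VL, part VL-7 (helper33): the bound of the integrals over small cubes.
-/

set_option autoImplicit false

open MeasureTheory Set Metric
open scoped ContDiff
open H459R3.NS Pool.Agent.W268.NS Pool.Agent.Q67.VD

namespace Pool.Agent.Helper33VL

open Pool.Agent.Q85.CC Pool.Agent.Q85.CL Pool.Agent.Q85.VL
open Pool.Agent.Q151.CC (WD coord_sq)

section

variable {x : V} {m : V → ℝ}

lemma im_nn (h0 : ∀ y, 0 ≤ m y) (r : ℝ) : 0 ≤ ∫ y in closedBall x r, m y :=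
  integral_nonneg fun y => h0 y

lemma im_mono (hm : Continuous m) (h0 : ∀ y, 0 ≤ m y) {r r' : ℝ} (h : r ≤ r') :
    ∫ y in closedBall x r, m y ≤ ∫ y in closedBall x r', m y :=
  setIntegral_mono_set (int_cb hm x r') (Filter.Eventually.of_forall fun y => h0 y)
    (closedBall_subset_closedBall h).eventuallyLE

lemma KS_term {R μ : ℝ} (hR : 0 < R) (h0 : ∀ y, 0 ≤ m y) (h : KS R x m μ) (k : ℕ) :
    ∫ y in closedBall x ((1 / 256 : ℝ) ^ k * R), m y ≤ μ * ((1 / 256 : ℝ) ^ k * R) := by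
  have h1 := h (k + 1)
  rw [Finset.sum_range_succ] at h1
  have h2 : 0 ≤ ∑ j ∈ Finset.range k,
      ((1 / 256 : ℝ) ^ j * R)⁻¹ * ∫ y in closedBall x ((1 / 256 : ℝ) ^ j * R), m y :=
    Finset.sum_nonneg fun j _ => mul_nonneg (by positivity) (im_nn h0 _)
  have h3 : ((1 / 256 : ℝ) ^ k * R)⁻¹ * ∫ y in closedBall x ((1 / 256 : ℝ) ^ k * R), m y ≤ μ := by
    linarith
  rw [inv_mul_le_iff₀ (by positivity)] at h3
  rw [mul_comm μ]
  exact h3

lemma KS_nn {R μ : ℝ} (h : KS R x m μ) : 0 ≤ μ := by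
  have := h 0
  simpa using this

lemma KS_quarter {R μ : ℝ} (hR : 0 < R) (hm : Continuous m) (h0 : ∀ y, 0 ≤ m y)
    (h : KS R x m μ) : KS (R / 4) x m (4 * μ) := by
  intro n
  have h1 := h n
  calc ∑ j ∈ Finset.range n, ((1 / 256 : ℝ) ^ j * (R / 4))⁻¹ *
        ∫ y in closedBall x ((1 / 256 : ℝ) ^ j * (R / 4)), m y
      ≤ ∑ j ∈ Finset.range n, 4 * (((1 / 256 : ℝ) ^ j * R)⁻¹ *
        ∫ y in closedBall x ((1 / 256 : ℝ) ^ j * R), m y) := by
        refine Finset.sum_le_sum fun j _ => ?_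
        have e1 : ((1 / 256 : ℝ) ^ j * (R / 4))⁻¹ = 4 * ((1 / 256 : ℝ) ^ j * R)⁻¹ := by
          field_simp
        rw [e1, mul_assoc]
        refine mul_le_mul_of_nonneg_left ?_ (by norm_num)
        refine mul_le_mul_of_nonneg_left (im_mono hm h0 ?_) (by positivity)
        exact mul_le_mul_of_nonneg_left (by linarith) (by positivity)
    _ = 4 * ∑ j ∈ Finset.range n, ((1 / 256 : ℝ) ^ j * R)⁻¹ *
        ∫ y in closedBall x ((1 / 256 : ℝ) ^ j * R), m y := by rw [Finset.mul_sum]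
    _ ≤ 4 * μ := by linarith

end

section

variable {κ ρ R : ℝ} {x : V} {f m : V → ℝ} {W : V → V} {g : V → ℝ}

/-- comparison of the fluxes along the scales -/
lemma chain (hC : StmCmp) (hκ : 0 < κ) (hκ1 : κ ≤ 1) (hρ : 0 < ρ) (h : LF κ R x f m W g)
    {R₀ μ : ℝ} (hR₀ : 0 < R₀) (hRR : R₀ ≤ R) (hK : KS R₀ x m μ) (j n : ℕ) :
    AA κ ρ R g x W m ((1 / 256) ^ (j + n) * R₀)
      ≤ AA κ ρ R g x W m ((1 / 256) ^ j * R₀) + 65536 / κ * μ := by
  have key : ∀ n : ℕ, AA κ ρ R g x W m ((1 / 256) ^ (j + n) * R₀)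
      ≤ AA κ ρ R g x W m ((1 / 256) ^ j * R₀) + 65536 / κ * ∑ i ∈ Finset.range n,
        ((1 / 256 : ℝ) ^ (j + i) * R₀)⁻¹ *
          ∫ y in closedBall x ((1 / 256 : ℝ) ^ (j + i) * R₀), m y := by
    intro n
    induction n with
    | zero => simp
    | succ n ih =>
      have h1 : (0 : ℝ) < (1 / 256) ^ (j + n) * R₀ := by positivity
      have h2 : ((1 / 256 : ℝ) ^ (j + n)) ≤ 1 := pow_le_one₀ (by norm_num) (by norm_num)
      have h3 : (1 / 256 : ℝ) ^ (j + n) * R₀ ≤ R :=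
        (mul_le_of_le_one_left hR₀.le h2).trans hRR
      have h4 : (1 / 256 : ℝ) ^ (j + (n + 1)) * R₀ = (1 / 256) ^ (j + n) * R₀ / 256 := by
        rw [← add_assoc, pow_succ]
        ring
      have h5 := hC κ ρ R ((1 / 256) ^ (j + n) * R₀) ((1 / 256) ^ (j + (n + 1)) * R₀) x f m W g
        hκ hκ1 hρ h (by positivity) (by rw [h4]; linarith) h3
      rw [Finset.sum_range_succ]
      have h6 : 256 / (κ * ((1 / 256) ^ (j + (n + 1)) * R₀))
          = 65536 / κ * ((1 / 256) ^ (j + n) * R₀)⁻¹ := by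
        rw [h4]
        field_simp
        norm_num
      rw [h6] at h5
      have h7 : 65536 / κ * ((1 / 256) ^ (j + n) * R₀)⁻¹ *
          (∫ y in closedBall x ((1 / 256) ^ (j + n) * R₀), m y)
          = 65536 / κ * (((1 / 256) ^ (j + n) * R₀)⁻¹ *
            ∫ y in closedBall x ((1 / 256) ^ (j + n) * R₀), m y) := by ring
      rw [h7] at h5
      rw [mul_add]
      linarith
  refine (key n).trans ?_
  have h1 : ∑ i ∈ Finset.range n, ((1 / 256 : ℝ) ^ (j + i) * R₀)⁻¹ *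
      ∫ y in closedBall x ((1 / 256 : ℝ) ^ (j + i) * R₀), m y ≤ μ := by
    refine le_trans ?_ (hK (j + n))
    rw [Finset.sum_range_add (fun i => ((1 / 256 : ℝ) ^ i * R₀)⁻¹ *
      ∫ y in closedBall x ((1 / 256 : ℝ) ^ i * R₀), m y)]
    have h2 : 0 ≤ ∑ i ∈ Finset.range j, ((1 / 256 : ℝ) ^ i * R₀)⁻¹ *
        ∫ y in closedBall x ((1 / 256 : ℝ) ^ i * R₀), m y :=
      Finset.sum_nonneg fun i _ => mul_nonneg (by positivity) (im_nn h.m0 _)
    linarith
  have h2 : 65536 / κ * _ ≤ 65536 / κ * μ :=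
    mul_le_mul_of_nonneg_left h1 (by positivity)
  linarith

end

/-- VL-7 -/
theorem stmMorV (hU : StmUB) (hC : StmCmp) (hL : StmLB) : StmMorV := by
  intro κ hκ hκ1
  refine ⟨1029 / 2 * (32768 / κ) ^ 2, κ / 256, by positivity, by positivity, by linarith, ?_⟩
  intro R μ x f m W g hR h hK r hr hrR
  have hμ := KS_nn hK
  -- the scale
  obtain ⟨k, hk1, hk2⟩ := exists_nat_pow_near_of_lt_one (x := 128 / κ * r / R) (y := 1 / 256)
    (by positivity) (by
      rw [div_le_one hR]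
      have h1 : 128 / κ * r ≤ 128 / κ * (κ / 256 * R) :=
        mul_le_mul_of_nonneg_left hrR (by positivity)
      have h2 : 128 / κ * (κ / 256 * R) = R / 2 := by
        field_simp
        norm_num
      linarith) (by norm_num) (by norm_num)
  rw [lt_div_iff₀ hR] at hk1
  rw [div_le_iff₀ hR] at hk2
  obtain ⟨S, hS⟩ : ∃ S, S = (1 / 256 : ℝ) ^ k * R := ⟨_, rfl⟩
  have hS0 : 0 < S := by rw [hS]; positivity
  have hSR : S ≤ R := by
    rw [hS]
    exact mul_le_of_le_one_left hR.le (pow_le_one₀ (by norm_num) (by norm_num))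
  have hSr : κ * S ≤ 32768 * r := by
    have e1 : (1 / 256 : ℝ) ^ (k + 1) * R = S / 256 := by
      rw [hS, pow_succ]
      ring
    rw [e1] at hk1
    have h1 : κ * (S / 256) ≤ κ * (128 / κ * r) := mul_le_mul_of_nonneg_left hk1.le hκ.le
    have h2 : κ * (128 / κ * r) = 128 * r := by field_simp
    linarith
  rw [← hS] at hk2
  have hLB := hL κ r R S x f m W g hκ hκ1 hr h hk2 hSR
  have hch := chain hC hκ hκ1 hr h hR le_rfl hK 0 k
  rw [zero_add, pow_zero, one_mul, ← hS] at hch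
  have hUB := hU κ r R R x f m W g hκ hκ1 hr h hR le_rfl
  have hmR : ∫ y in closedBall x R, m y ≤ μ * R := by
    have := KS_term hR h.m0 hK 0
    simpa using this
  have hmS : ∫ y in closedBall x S, m y ≤ μ * S := by
    have := KS_term hR h.m0 hK k
    rwa [← hS] at this
  have hfm : ∫ y in closedBall x R, (2 * f y + m y)
      = 2 * (∫ y in closedBall x R, f y) + ∫ y in closedBall x R, m y := by
    rw [integral_add ((int_cb h.fc x R).const_mul 2) (int_cb h.mc x R), integral_const_mul]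
  rw [hfm] at hUB
  obtain ⟨F, hF⟩ : ∃ F, F = (∫ y in closedBall x R, f y) / R := ⟨_, rfl⟩
  have hFR : ∫ y in closedBall x R, f y = F * R := by
    rw [hF]
    field_simp
  have hF0 : 0 ≤ F := by
    rw [hF]
    exact div_nonneg (setIntegral_nonneg isClosed_closedBall.measurableSet fun y hy =>
      f_nn h hy) hR.le
  rw [← hF]
  have hA0 : AA κ r R g x W m R ≤ 128 / κ * (2 * F + μ) := by
    refine hUB.trans ?_
    rw [hFR]
    have e1 : 128 / (κ * R) * (2 * (F * R) + ∫ y in closedBall x R, m y)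
        ≤ 128 / (κ * R) * (2 * (F * R) + μ * R) :=
      mul_le_mul_of_nonneg_left (by linarith) (by positivity)
    refine e1.trans (le_of_eq ?_)
    field_simp
  have hAS : κ * AA κ r R g x W m S ≤ 65792 * (F + μ) := by
    have e1 : κ * AA κ r R g x W m S ≤ κ * (128 / κ * (2 * F + μ) + 65536 / κ * μ) :=
      mul_le_mul_of_nonneg_left (by linarith) hκ.le
    have e2 : κ * (128 / κ * (2 * F + μ) + 65536 / κ * μ) = 128 * (2 * F + μ) + 65536 * μ := by
      field_simp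
    rw [e2] at e1
    linarith
  have h1 : 2 * κ * r * (∫ y in closedBall x r, f y) ≤ κ * S ^ 2 * (1029 * (F + μ)) := by
    refine hLB.trans ?_
    have e1 : (κ * S / 8) ^ 2 * AA κ r R g x W m S = κ * S ^ 2 / 64 * (κ * AA κ r R g x W m S) := by
      ring
    have e2 : κ * S ^ 2 / 64 * (κ * AA κ r R g x W m S) ≤ κ * S ^ 2 / 64 * (65792 * (F + μ)) :=
      mul_le_mul_of_nonneg_left hAS (by positivity)
    have e3 : κ * S / 4 * (∫ y in closedBall x S, m y) ≤ κ * S / 4 * (μ * S) :=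
      mul_le_mul_of_nonneg_left hmS (by positivity)
    have e4 : 0 ≤ κ * S ^ 2 * F := by positivity
    have e5 : 0 ≤ κ * S ^ 2 * μ := by positivity
    rw [e1]
    nlinarith
  have h2 : κ * (κ * S ^ 2) ≤ (32768 * r) ^ 2 := by
    have : (κ * S) ^ 2 ≤ (32768 * r) ^ 2 := pow_le_pow_left₀ (by positivity) hSr 2
    calc κ * (κ * S ^ 2) = (κ * S) ^ 2 := by ring
      _ ≤ _ := this
  have h3 : κ * (2 * κ * r * (∫ y in closedBall x r, f y))
      ≤ (32768 * r) ^ 2 * (1029 * (F + μ)) := by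
    calc κ * (2 * κ * r * (∫ y in closedBall x r, f y))
        ≤ κ * (κ * S ^ 2 * (1029 * (F + μ))) := mul_le_mul_of_nonneg_left h1 hκ.le
      _ = κ * (κ * S ^ 2) * (1029 * (F + μ)) := by ring
      _ ≤ _ := mul_le_mul_of_nonneg_right h2 (by positivity)
  have h4 : (2 * κ ^ 2 * r) * (∫ y in closedBall x r, f y)
      ≤ (2 * κ ^ 2 * r) * (1029 / 2 * (32768 / κ) ^ 2 * (F + μ) * r) := by
    have e1 : (2 * κ ^ 2 * r) * (1029 / 2 * (32768 / κ) ^ 2 * (F + μ) * r)
        = (32768 * r) ^ 2 * (1029 * (F + μ)) := by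
      field_simp
    rw [e1]
    calc (2 * κ ^ 2 * r) * (∫ y in closedBall x r, f y)
        = κ * (2 * κ * r * (∫ y in closedBall x r, f y)) := by ring
      _ ≤ _ := h3
  exact le_of_mul_le_mul_left h4 (by positivity)

end Pool.Agent.Helper33VL
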