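import Pool.Agent.Helper33VL.MorV

/-!
Project VL, part VL-8 (helper33): the pinching lemma.
-/

set_option autoImplicit false

open MeasureTheory Set Metric
open scoped ContDiff
open H459R3.NS Pool.Agent.W268.NS Pool.Agent.Q67.VD

namespace Pool.Agent.Helper33VL

open Pool.Agent.Q85.CC Pool.Agent.Q85.CL Pool.Agent.Q85.VL
open Pool.Agent.Q151.CC (WD coord_sq)

/-- the backward lemma: if `u` is not small on the surface, there is no flux at small scales -/
def StmBack : Prop := ∀ (κ ρ R r s : ℝ) (x : V) (f m : V → ℝ) (W : V → V) (g : V → ℝ),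
  0 < κ → κ ≤ 1 → 0 < ρ → LF κ R x f m W g → 0 < r → ρ ≤ r / 64 → r / 64 ≤ s → s ≤ r / 32 →
  r ≤ R → (∀ y, ‖y - x‖ = s → -(κ * r / 16384) < uu κ ρ g x y) →
    AA κ ρ R g x W m (r / 256) ≤ 41472 / (κ * r) * ∫ y in closedBall x r, m y

lemma uu_lip (hB : StmBas) {κ ρ : ℝ} {g : V → ℝ} (hκ : 0 < κ) (hκ1 : κ ≤ 1) (hρ : 0 < ρ)
    (hg : ∀ y z, |g y - g z| ≤ len (y - z)) (x y z : V) :
    |uu κ ρ g x y - uu κ ρ g x z| ≤ 3 * ‖y - z‖ := by
  have h1 := abs_le.1 (hg y z)
  have h2 := abs_le.1 ((ds_facts hB x hρ).2.2.2.2.2.1 y z)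
  have h3 := len_le_norm' (y - z)
  have h4 := len_nn (y - z)
  have e : uu κ ρ g x y - uu κ ρ g x z = (g y - g z) - κ / 2 * (ds x ρ y - ds x ρ z) := by
    unfold uu
    ring
  have h5 : |κ / 2 * (ds x ρ y - ds x ρ z)| ≤ 1 / 2 * len (y - z) := by
    rw [abs_mul, abs_of_pos (by positivity : 0 < κ / 2)]
    exact mul_le_mul (by linarith) (abs_le.2 h2) (abs_nonneg _) (by norm_num)
  have h6 := abs_le.1 h5
  have h7 := norm_nonneg (y - z)
  rw [e, abs_le]
  constructor <;> linarith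

/-- the radial projection to the surface of the cube -/
lemma radial {x y : V} {s : ℝ} (hs : 0 ≤ s) (hy : 0 < ‖y - x‖) :
    ∃ y', ‖y' - x‖ = s ∧ ‖y' - y‖ = |s - ‖y - x‖| := by
  refine ⟨x + (s / ‖y - x‖) • (y - x), ?_, ?_⟩
  · rw [add_sub_cancel_left, norm_smul, Real.norm_eq_abs, abs_of_nonneg (by positivity)]
    field_simp
  · have e : x + (s / ‖y - x‖) • (y - x) - y = (s / ‖y - x‖ - 1) • (y - x) := by
      rw [sub_smul, one_smul]
      abel
    have e2 : s / ‖y - x‖ - 1 = (s - ‖y - x‖) / ‖y - x‖ := by field_simp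
    rw [e, norm_smul, Real.norm_eq_abs, e2, abs_div, abs_of_pos hy]
    field_simp

lemma sphere_conn (x : V) (s : ℝ) : IsPreconnected (sphere x s) := by
  apply isPreconnected_sphere
  rw [rank_fun', Fintype.card_fin]
  norm_num

set_option maxHeartbeats 1600000 in
/-- VL-8 -/
theorem stmPinV (hB : StmBas) (hBk : StmBack) (hU : StmUB) (hC : StmCmp) (hL : StmLB)
    (hF : StmFC) (hT : StmTF) : StmPinV := by
  intro κ hκ hκ1
  refine ⟨κ / 524288, κ ^ 2 / 10 ^ 14, by positivity, by linarith, by positivity, ?_, ?_⟩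
  · rw [div_le_one (by norm_num)]
    have : κ ^ 2 ≤ 1 := pow_le_one₀ hκ.le hκ1
    linarith
  intro K η τ hK hη hη1 hτ hτ1
  obtain ⟨N1, hN1⟩ : ∃ N1 : ℕ, 2 * (2 * K + 1) / (κ * τ) < N1 := exists_nat_gt _
  obtain ⟨N2, hN2⟩ := pow_unbounded_of_one_lt (131072 / κ) (show (1 : ℝ) < 256 by norm_num)
  refine ⟨N1 + N2, ?_⟩
  intro R ρ x f m W g hR h hfK hKS hρ hρN hconc
  have hκ2 : κ ^ 2 ≤ κ := by nlinarith
  have hκ20 : 0 < κ ^ 2 := by positivity
  obtain ⟨μ, hμd⟩ : ∃ μ, μ = κ ^ 2 / 10 ^ 14 * η * τ := ⟨_, rfl⟩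
  rw [← hμd] at hKS
  have hμ : 0 < μ := by rw [hμd]; positivity
  have hμη : μ ≤ κ ^ 2 * η / 10 ^ 14 := by
    rw [hμd]
    have h1 : κ ^ 2 / 10 ^ 14 * η * τ ≤ κ ^ 2 / 10 ^ 14 * η * 1 := by gcongr
    refine h1.trans (le_of_eq (by ring))
  have hμτ : μ ≤ κ ^ 2 * τ / 10 ^ 14 := by
    rw [hμd]
    have h1 : κ ^ 2 / 10 ^ 14 * η * τ ≤ κ ^ 2 / 10 ^ 14 * 1 * τ := by gcongr
    refine h1.trans (le_of_eq (by ring))
  have hμ1 : μ ≤ 1 := by
    refine hμη.trans ?_
    rw [div_le_one (by norm_num)]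
    nlinarith
  have hK4 := KS_quarter hR h.mc h.m0 hKS
  have hR4 : 0 < R / 4 := by positivity
  have hR4R : R / 4 ≤ R := by linarith
  obtain ⟨a, ha⟩ : ∃ a : ℕ → ℝ, a = fun k => AA κ ρ R g x W m ((1 / 256) ^ k * (R / 4)) :=
    ⟨_, rfl⟩
  have ha' : ∀ k, a k = AA κ ρ R g x W m ((1 / 256) ^ k * (R / 4)) := fun k => by rw [ha]
  have hpow : ∀ k : ℕ, (0 : ℝ) < (1 / 256) ^ k := fun k => by positivity
  have hpow1 : ∀ k : ℕ, (1 / 256 : ℝ) ^ k ≤ 1 := fun k => pow_le_one₀ (by norm_num) (by norm_num)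
  have hrR : ∀ k : ℕ, (1 / 256 : ℝ) ^ k * (R / 4) ≤ R / 4 := fun k =>
    mul_le_of_le_one_left hR4.le (hpow1 k)
  have hmk : ∀ k : ℕ, ∫ y in closedBall x ((1 / 256 : ℝ) ^ k * (R / 4)), m y
      ≤ 4 * μ * ((1 / 256 : ℝ) ^ k * (R / 4)) := KS_term hR4 h.m0 hK4
  -- (1) upper bound
  have h1 : a 0 ≤ 512 / κ * (2 * K + 1) := by
    have e1 := hU κ ρ R (R / 4) x f m W g hκ hκ1 hρ h hR4 hR4R
    have e2 : ∫ y in closedBall x (R / 4), (2 * f y + m y)
        = 2 * (∫ y in closedBall x (R / 4), f y) + ∫ y in closedBall x (R / 4), m y := by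
      rw [integral_add ((int_cb h.fc x _).const_mul 2) (int_cb h.mc x _), integral_const_mul]
    have e3 : ∫ y in closedBall x (R / 4), f y ≤ K * R := by
      refine le_trans ?_ hfK
      refine setIntegral_mono_set (int_cb h.fc x R) ?_
        (closedBall_subset_closedBall hR4R).eventuallyLE
      filter_upwards [ae_restrict_mem isClosed_closedBall.measurableSet] with y hy
      exact f_nn h hy
    have e4 : ∫ y in closedBall x (R / 4), m y ≤ μ * R := by
      have := hmk 0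
      rw [pow_zero, one_mul] at this
      linarith
    rw [e2] at e1
    rw [ha' 0, pow_zero, one_mul]
    refine e1.trans ?_
    have e5 : 128 / (κ * (R / 4)) * (2 * (∫ y in closedBall x (R / 4), f y)
        + ∫ y in closedBall x (R / 4), m y) ≤ 128 / (κ * (R / 4)) * (2 * (K * R) + 1 * R) := by
      refine mul_le_mul_of_nonneg_left ?_ (by positivity)
      have : μ * R ≤ 1 * R := mul_le_mul_of_nonneg_right hμ1 hR.le
      linarith
    refine e5.trans (le_of_eq ?_)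
    field_simp
    norm_num
  -- (2) the smallest scale
  have hρN' : ρ * (131072 * 256 ^ N1) ≤ κ * R := by
    have e1 : (1 / 256 : ℝ) ^ (N1 + N2) * R * 256 ^ (N1 + N2) = R := by
      have : (1 / 256 : ℝ) ^ (N1 + N2) * 256 ^ (N1 + N2) = 1 := by
        rw [← mul_pow]
        norm_num
      calc (1 / 256 : ℝ) ^ (N1 + N2) * R * 256 ^ (N1 + N2)
          = ((1 / 256 : ℝ) ^ (N1 + N2) * 256 ^ (N1 + N2)) * R := by ring
        _ = R := by rw [this, one_mul]
    have e2 : ρ * 256 ^ (N1 + N2) ≤ R := by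
      rw [← e1]
      exact mul_le_mul_of_nonneg_right hρN (by positivity)
    rw [pow_add] at e2
    rw [div_lt_iff₀ hκ] at hN2
    have e3 : ρ * (131072 * 256 ^ N1) ≤ ρ * (256 ^ N2 * κ * 256 ^ N1) := by
      have : (131072 : ℝ) * 256 ^ N1 ≤ 256 ^ N2 * κ * 256 ^ N1 :=
        mul_le_mul_of_nonneg_right hN2.le (by positivity)
      exact mul_le_mul_of_nonneg_left this hρ.le
    have e4 : κ * (ρ * (256 ^ N1 * 256 ^ N2)) ≤ κ * R := mul_le_mul_of_nonneg_left e2 hκ.le
    calc ρ * (131072 * 256 ^ N1) ≤ ρ * (256 ^ N2 * κ * 256 ^ N1) := e3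
      _ = κ * (ρ * (256 ^ N1 * 256 ^ N2)) := by ring
      _ ≤ _ := e4
  have h256 : (1 : ℝ) ≤ 256 ^ N1 := one_le_pow₀ (by norm_num)
  obtain ⟨ks, hks1, hks2⟩ := exists_nat_pow_near_of_lt_one (x := 128 / κ * ρ / (R / 4))
    (y := 1 / 256) (by positivity) (by
      rw [div_le_one hR4]
      have e1 : κ * (128 / κ * ρ) ≤ κ * (R / 4) := by
        have e2 : κ * (128 / κ * ρ) = 128 * ρ := by field_simp
        rw [e2]
        nlinarith
      exact le_of_mul_le_mul_left e1 hκ) (by norm_num) (by norm_num)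
  have hksN : N1 < ks := by
    have e1 : 128 / κ * ρ / (R / 4) ≤ (1 / 256) ^ (N1 + 1) := by
      rw [div_le_iff₀ hR4]
      have e2 : κ * (128 / κ * ρ) ≤ κ * ((1 / 256) ^ (N1 + 1) * (R / 4)) := by
        have e3 : κ * (128 / κ * ρ) = 128 * ρ := by field_simp
        rw [e3]
        have e4 : 256 ^ N1 * (128 * ρ) ≤ 256 ^ N1 * (κ * ((1 / 256) ^ (N1 + 1) * (R / 4))) := by
          have e5 : (256 : ℝ) ^ N1 * (1 / 256) ^ N1 = 1 := by
            rw [← mul_pow]
            norm_num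
          have e6 : 256 ^ N1 * (κ * ((1 / 256) ^ (N1 + 1) * (R / 4))) = κ * R / 1024 := by
            rw [pow_succ]
            calc 256 ^ N1 * (κ * ((1 / 256 : ℝ) ^ N1 * (1 / 256) * (R / 4)))
                = (256 ^ N1 * (1 / 256 : ℝ) ^ N1) * (κ * ((1 / 256) * (R / 4))) := by ring
              _ = κ * R / 1024 := by rw [e5]; ring
          rw [e6]
          linarith
        exact le_of_mul_le_mul_left e4 (by positivity)
      exact le_of_mul_le_mul_left e2 hκ
    have e2 : (1 / 256 : ℝ) ^ (ks + 1) < (1 / 256) ^ (N1 + 1) := hks1.trans_le e1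
    by_contra hc
    rw [not_lt] at hc
    have := pow_le_pow_of_le_one (show (0 : ℝ) ≤ 1 / 256 by norm_num) (by norm_num)
      (Nat.succ_le_succ hc)
    exact absurd e2 (not_lt.2 this)
  rw [lt_div_iff₀ hR4] at hks1
  rw [div_le_iff₀ hR4] at hks2
  -- (3), (4) lower bound
  have h2 : ∀ j ≤ ks, κ * η / 10 ^ 7 ≤ a j := by
    intro j hj
    obtain ⟨S, hS⟩ : ∃ S, S = (1 / 256 : ℝ) ^ ks * (R / 4) := ⟨_, rfl⟩
    have hS0 : 0 < S := by rw [hS]; positivity
    have hSR : S ≤ R := by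
      rw [hS]
      linarith [hrR ks]
    rw [← hS] at hks2
    have hSr : κ * S ≤ 32768 * ρ := by
      have e1 : (1 / 256 : ℝ) ^ (ks + 1) * (R / 4) = S / 256 := by
        rw [hS, pow_succ]
        ring
      rw [e1] at hks1
      have e2 : κ * (S / 256) ≤ κ * (128 / κ * ρ) := mul_le_mul_of_nonneg_left hks1.le hκ.le
      have e3 : κ * (128 / κ * ρ) = 128 * ρ := by field_simp
      linarith
    have hLB := hL κ ρ R S x f m W g hκ hκ1 hρ h hks2 hSR
    have hmS := hmk ks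
    rw [← hS] at hmS
    have e1 : 2 * κ * ρ * (η * ρ) ≤ 2 * κ * ρ * ∫ y in closedBall x ρ, f y :=
      mul_le_mul_of_nonneg_left hconc (by positivity)
    have e2 : κ * S / 4 * (∫ y in closedBall x S, m y) ≤ κ * S / 4 * (4 * μ * S) :=
      mul_le_mul_of_nonneg_left hmS (by positivity)
    have e3 : a ks = AA κ ρ R g x W m S := by rw [ha' ks, ← hS]
    rw [← e3] at hLB
    have e4 : 2 * κ * η * ρ ^ 2 ≤ κ * S ^ 2 * (κ * a ks / 64 + μ) := by
      nlinarith
    have e5 : (κ * S) ^ 2 ≤ (32768 * ρ) ^ 2 := pow_le_pow_left₀ (by positivity) hSr 2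
    have e6 : κ * S ^ 2 * (2 * κ ^ 2 * η) ≤ κ * S ^ 2 * (32768 ^ 2 * (κ * a ks / 64 + μ)) := by
      calc κ * S ^ 2 * (2 * κ ^ 2 * η) = 2 * κ * η * (κ * S) ^ 2 := by ring
        _ ≤ 2 * κ * η * (32768 * ρ) ^ 2 := mul_le_mul_of_nonneg_left e5 (by positivity)
        _ = 32768 ^ 2 * (2 * κ * η * ρ ^ 2) := by ring
        _ ≤ 32768 ^ 2 * (κ * S ^ 2 * (κ * a ks / 64 + μ)) :=
          mul_le_mul_of_nonneg_left e4 (by norm_num)
        _ = _ := by ring
    have e7 : 2 * κ ^ 2 * η ≤ 32768 ^ 2 * (κ * a ks / 64 + μ) :=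
      le_of_mul_le_mul_left e6 (by positivity)
    have e8 := chain hC hκ hκ1 hρ h hR4 hR4R hK4 j (ks - j)
    rw [Nat.add_sub_cancel' hj, ← ha' ks, ← ha' j] at e8
    have e9 : κ * a ks ≤ κ * a j + 262144 * μ := by
      have := mul_le_mul_of_nonneg_left e8 hκ.le
      have e10 : κ * (a j + 65536 / κ * (4 * μ)) = κ * a j + 262144 * μ := by
        field_simp
        ring
      rwa [e10] at this
    have e10 : κ * (κ * η / 10 ^ 7) ≤ κ * a j := by
      have e11 : κ * (κ * η / 10 ^ 7) = κ ^ 2 * η / 10 ^ 7 := by ring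
      rw [e11]
      have e12 : 0 < κ ^ 2 * η := by positivity
      rw [le_div_iff₀ (by norm_num)] at hμη
      rw [div_le_iff₀ (by norm_num)]
      nlinarith
    exact le_of_mul_le_mul_left e10 hκ
  -- (5) the scale
  have hκη : 0 < κ * η := by positivity
  obtain ⟨k, hkN, hk⟩ : ∃ k < N1, a k - a (k + 1) ≤ 256 * τ := by
    by_contra hcon
    push Not at hcon
    have e1 : (N1 : ℝ) * (256 * τ) ≤ a 0 - a N1 := by
      have : ∑ k ∈ Finset.range N1, (256 * τ) ≤ ∑ k ∈ Finset.range N1, (a k - a (k + 1)) :=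
        Finset.sum_le_sum fun k hk => (hcon k (Finset.mem_range.1 hk)).le
      rw [Finset.sum_range_sub', Finset.sum_const, Finset.card_range, nsmul_eq_mul] at this
      exact this
    have e2 := h2 N1 hksN.le
    have e3 : 0 < κ * η / 10 ^ 7 := by positivity
    rw [div_lt_iff₀ (by positivity)] at hN1
    have e4 : κ * ((N1 : ℝ) * (256 * τ)) ≤ κ * (512 / κ * (2 * K + 1)) :=
      mul_le_mul_of_nonneg_left (by linarith) hκ.le
    have e5 : κ * (512 / κ * (2 * K + 1)) = 512 * (2 * K + 1) := by field_simp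
    rw [e5] at e4
    nlinarith
  refine ⟨k, by omega, ?_⟩
  obtain ⟨r, hr⟩ : ∃ r, r = (1 / 256 : ℝ) ^ k * (R / 4) := ⟨_, rfl⟩
  rw [← hr]
  have hr0 : 0 < r := by rw [hr]; positivity
  have hrR' : r ≤ R := by rw [hr]; linarith [hrR k]
  have hr256 : (1 / 256 : ℝ) ^ (k + 1) * (R / 4) = r / 256 := by
    rw [hr, pow_succ]
    ring
  have hak : a k = AA κ ρ R g x W m r := by rw [ha' k, ← hr]
  have hak1 : a (k + 1) = AA κ ρ R g x W m (r / 256) := by rw [ha' (k + 1), hr256]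
  have hmr : ∫ y in closedBall x r, m y ≤ 4 * μ * r := by rw [hr]; exact hmk k
  have hρr : ρ ≤ r / 64 := by
    have e1 : (1 / 256 : ℝ) ^ (N1 + N2) * R ≤ (1 / 256) ^ (k + 1) * R :=
      mul_le_mul_of_nonneg_right (pow_le_pow_of_le_one (by norm_num) (by norm_num) (by omega))
        hR.le
    have e2 : (1 / 256 : ℝ) ^ (k + 1) * R = r / 64 := by
      rw [hr, pow_succ]
      ring
    linarith
  have hlow : κ * η / 10 ^ 7 ≤ a (k + 1) := h2 (k + 1) (by omega)
  have hκr : 0 < κ * r := by positivity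
  have hμκ : μ / κ ≤ κ * η / 10 ^ 14 := by
    rw [div_le_iff₀ hκ]
    refine hμη.trans (le_of_eq (by ring))
  -- the flux through the shells
  have hshell : ∀ s, r / 64 ≤ s → s ≤ r / 32 → ∀ w, 0 < w → w ≤ s / 4 →
      κ ^ 2 / 10 ^ 14 * η * w < ∫ y in Shell x s w ∩ {y | 0 < uu κ ρ g x y}, f y := by
    intro s hs1 hs2 w hw hws
    have e1 := hF κ ρ R (r / 256) s w x f m W g hκ hκ1 hρ h (by positivity) (by linarith) hw hws
      (by linarith)
    rw [← hak1] at e1
    have e2 : ∫ y in closedBall x (s + w), m y ≤ 4 * μ * r :=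
      (im_mono h.mc h.m0 (by linarith)).trans hmr
    have e3 : 256 / (κ * (r / 256)) * (∫ y in closedBall x (s + w), m y)
        ≤ 262144 * (μ / κ) := by
      refine (mul_le_mul_of_nonneg_left e2 (by positivity)).trans (le_of_eq ?_)
      field_simp
      norm_num
    obtain ⟨X, hX⟩ : ∃ X, X = ∫ y in Shell x s w ∩ {y | 0 < uu κ ρ g x y}, f y := ⟨_, rfl⟩
    rw [← hX] at e1 ⊢
    have e4 : κ * η / 10 ^ 7 - 262144 * (κ * η / 10 ^ 14) ≤ 2 / w * X := by linarith
    have e5 : κ * η / 10 ^ 8 ≤ 2 / w * X := by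
      refine le_trans ?_ e4
      have : 0 < κ * η := hκη
      nlinarith
    have e6 : w * (κ * η / 10 ^ 8) ≤ 2 * X := by
      have := mul_le_mul_of_nonneg_left e5 hw.le
      have e7 : w * (2 / w * X) = 2 * X := by field_simp
      rwa [e7] at this
    have e7 : κ ^ 2 / 10 ^ 14 * η * w ≤ κ / 10 ^ 14 * η * w := by
      have : κ ^ 2 / 10 ^ 14 ≤ κ / 10 ^ 14 := div_le_div_of_nonneg_right hκ2 (by norm_num)
      gcongr
    have e8 : 0 < κ * η * w := by positivity
    nlinarith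
  intro s hs1 hs2
  have hs0 : 0 < s := by linarith
  refine ⟨?_, ?_⟩
  · -- the point `z`
    have hu1 : ContDiff ℝ 1 (uu κ ρ g x) := uu_c1 hB hρ h.gs
    obtain ⟨y1, hy1s, hy1u⟩ : ∃ y1, ‖y1 - x‖ = s ∧ -(κ * r / 16384) ≤ uu κ ρ g x y1 := by
      obtain ⟨w0, hw0⟩ : ∃ w0, w0 = min (s / 4) (κ * r / 100000) := ⟨_, rfl⟩
      have hw0p : 0 < w0 := by rw [hw0]; positivity
      have hw01 : w0 ≤ s / 4 := by rw [hw0]; exact min_le_left _ _
      have hw02 : w0 ≤ κ * r / 100000 := by rw [hw0]; exact min_le_right _ _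
      have e1 := hshell s hs1 hs2 w0 hw0p hw01
      have e2 : (Shell x s w0 ∩ {y | 0 < uu κ ρ g x y}).Nonempty := by
        by_contra hc
        rw [not_nonempty_iff_eq_empty] at hc
        rw [hc, setIntegral_empty] at e1
        have : 0 < κ ^ 2 / 10 ^ 14 * η * w0 := by positivity
        linarith
      obtain ⟨y, hyS, hyu⟩ := e2
      have hyS' : |‖y - x‖ - s| ≤ w0 := hyS
      have hyu' : 0 < uu κ ρ g x y := hyu
      have hy0 : 0 < ‖y - x‖ := by linarith [(abs_le.1 hyS').1]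
      obtain ⟨y', hy'1, hy'2⟩ := radial hs0.le hy0
      refine ⟨y', hy'1, ?_⟩
      have e3 := abs_le.1 (uu_lip hB hκ hκ1 hρ h.lip x y' y)
      rw [hy'2, abs_sub_comm] at e3
      linarith [e3.1]
    obtain ⟨y2, hy2s, hy2u⟩ : ∃ y2, ‖y2 - x‖ = s ∧ uu κ ρ g x y2 ≤ -(κ * r / 16384) := by
      by_contra hcon
      push Not at hcon
      have e1 := hBk κ ρ R r s x f m W g hκ hκ1 hρ h hr0 hρr hs1 hs2 hrR' hcon
      rw [← hak1] at e1
      have e2 : 41472 / (κ * r) * (∫ y in closedBall x r, m y) ≤ 165888 * (μ / κ) := by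
        refine (mul_le_mul_of_nonneg_left hmr (by positivity)).trans (le_of_eq ?_)
        field_simp
        norm_num
      have e3 : κ * η / 10 ^ 7 ≤ 165888 * (κ * η / 10 ^ 14) := by linarith
      nlinarith
    obtain ⟨z, hz, hzu⟩ := (sphere_conn x s).intermediate_value
      (show y2 ∈ sphere x s by rw [mem_sphere, dist_eq_norm]; exact hy2s)
      (show y1 ∈ sphere x s by rw [mem_sphere, dist_eq_norm]; exact hy1s)
      hu1.continuous.continuousOn ⟨hy2u, hy1u⟩
    rw [mem_sphere, dist_eq_norm] at hz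
    refine ⟨z, hz, ?_⟩
    have e1 := hT κ ρ R r s x z f m W g hκ hκ1 hρ h hr0 hrR' hρr hs1 hs2 hz (by
      rw [hzu]
      ring)
    rw [← hak, ← hak1] at e1
    refine e1.trans ?_
    have e2 : r / 512 * (a k - a (k + 1)) ≤ r / 512 * (256 * τ) :=
      mul_le_mul_of_nonneg_left hk (by positivity)
    have e3 : 1024 / κ * (∫ y in closedBall x r, m y) ≤ 1024 / κ * (4 * μ * r) :=
      mul_le_mul_of_nonneg_left hmr (by positivity)
    have e4 : 1024 / κ * (4 * μ * r) = 4096 * (μ / κ) * r := by ring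
    have e5 : μ / κ ≤ τ / 10 ^ 14 := by
      rw [div_le_iff₀ hκ]
      have : κ ^ 2 * τ / 10 ^ 14 ≤ κ * τ / 10 ^ 14 := by gcongr
      linarith
    have e6 : 4096 * (μ / κ) * r ≤ 4096 * (τ / 10 ^ 14) * r := by gcongr
    have e7 : 0 < τ * r := by positivity
    rw [e4] at e3
    nlinarith
  · intro w hw hws
    have e1 := hshell s hs1 hs2 w hw hws
    refine e1.le.trans ?_
    have hsw : Shell x s w ⊆ closedBall x R := by
      intro y hy
      have h3 : |‖y - x‖ - s| ≤ w := hy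
      rw [mem_closedBall, dist_eq_norm]
      linarith [(abs_le.1 h3).2]
    have hSm : MeasurableSet (Shell x s w) :=
      (isClosed_le (by fun_prop) continuous_const).measurableSet
    refine setIntegral_mono_set ((int_cb h.fc x R).mono_set hsw) ?_
      (inter_subset_left.eventuallyLE)
    filter_upwards [ae_restrict_mem hSm] with y hy
    exact f_nn h (hsw hy)

end Pool.Agent.Helper33VL
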