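import Pool.Agent.Helper33VL.Calc

/-!
Project VL, part VL-6: two families of curves (helper33).
-/

set_option autoImplicit false

open MeasureTheory Set Metric
open scoped ContDiff
open H459R3.NS Pool.Agent.W268.NS Pool.Agent.Q67.VD

namespace Pool.Agent.Helper33VL

open Pool.Agent.Q85.CC Pool.Agent.Q85.CL Pool.Agent.Q85.VL
open Pool.Agent.Q151.CC (WD coord_sq)

lemma int_ind' {f : V → ℝ} {S T : Set V} (hS : MeasurableSet S) (h : S ⊆ T) :
    ∫ y in T, S.indicator f y = ∫ y in S, f y := by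
  rw [setIntegral_indicator hS, inter_eq_self_of_subset_right h]

lemma ind_nn {m : V → ℝ} (h : ∀ y, 0 ≤ m y) (S : Set V) (y : V) : 0 ≤ S.indicator m y :=
  indicator_nonneg (fun y _ => h y) y

/-- a term with a nonnegative bounded factor which vanishes outside of the cube -/
lemma term_lo {P c d m : ℝ} {S : Set V} {y : V} {M : V → ℝ} (hM : M y = m) (hm : 0 ≤ m)
    (hd : -m ≤ d) (hP0 : 0 ≤ P) (hP : P ≤ c) (hS : P ≠ 0 → y ∈ S) :
    -(c * S.indicator M y) ≤ P * d := by
  by_cases h : P = 0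
  · rw [h, zero_mul]
    have : 0 ≤ S.indicator M y := by
      by_cases hy : y ∈ S
      · rw [indicator_of_mem hy, hM]; exact hm
      · rw [indicator_of_notMem hy]
    have hc : 0 ≤ c := by linarith
    nlinarith
  · rw [indicator_of_mem (hS h), hM]
    nlinarith

lemma int4 {S : Set V} {a b c d : V → ℝ} (k1 k2 : ℝ) (ha : IntegrableOn a S)
    (hb : IntegrableOn b S) (hc : IntegrableOn c S) (hd : IntegrableOn d S) :
    ∫ y in S, (a y - b y + k1 * c y - k2 * d y)
      = (∫ y in S, a y) - (∫ y in S, b y) + k1 * (∫ y in S, c y) - k2 * ∫ y in S, d y := by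
  have h1 : Integrable (fun y => a y - b y) (volume.restrict S) := ha.sub hb
  have h2 : Integrable (fun y => a y - b y + k1 * c y) (volume.restrict S) :=
    h1.add (hc.const_mul k1)
  rw [integral_sub h2 (hd.const_mul k2), integral_add h1 (hc.const_mul k1), integral_sub ha hb,
    integral_const_mul, integral_const_mul]

set_option maxHeartbeats 4000000 in
theorem stmTF (hB : StmBas) : StmTF := by
  intro κ ρ R r s x z f m W g hκ hκ1 hρ h hr hrR hρr hs1 hs2 hzx huz
  obtain ⟨ρz, hρzd⟩ : ∃ ρz, ρz = κ / 524288 * r := ⟨_, rfl⟩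
  rw [← hρzd]
  have hρz : 0 < ρz := by rw [hρzd]; positivity
  have hκr : 0 < κ * r := by positivity
  have hρz' : 524288 * ρz = κ * r := by rw [hρzd]; ring
  obtain ⟨r', hr'd⟩ : ∃ r', r' = r / 256 := ⟨_, rfl⟩
  rw [← hr'd]
  have hr' : 0 < r' := by rw [hr'd]; positivity
  have hr'r : 256 * r' = r := by rw [hr'd]; ring
  have hκr' : 0 < κ * r' := by positivity
  have hκrr : 256 * (κ * r') = κ * r := by rw [← hr'r]; ring
  have hu1 : ContDiff ℝ 1 (uu κ ρ g x) := uu_c1 hB hρ h.gs
  have hw1 : ContDiff ℝ 1 (ww κ ρ g x) := ww_c1 hB hρ h.gs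
  have hz1 : ContDiff ℝ 1 (ww κ ρz g z) := ww_c1 hB hρz h.gs
  obtain ⟨k1, k2, k3, k4, k5, k6, -⟩ := ds_facts hB x hρ
  obtain ⟨l1, l2, l3, l4, l5, l6, -⟩ := ds_facts hB z hρz
  -- the geometry
  have g1 : r / 64 ≤ ds x ρ z := (hs1.trans hzx.ge).trans (k4 z)
  have g2 : ds x ρ z ≤ 9 / 128 * r := by
    have e1 := k3 z
    have e2 := len_le_norm' (z - x)
    rw [hzx] at e2
    linarith
  have g3 : ∀ y, ds x ρ y ≤ ds z ρz y + 9 / 128 * r := by
    intro y
    have e1 := k3 y
    have e2 : len (y - x) ≤ len (y - z) + len (z - x) := by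
      have := len_tri (y - z) (z - x)
      rwa [sub_add_sub_cancel] at this
    have e3 := l1 y
    have e4 := len_le_norm' (z - x)
    rw [hzx] at e4
    linarith
  have g4 : ∀ y, |ds x ρ y - ds x ρ z| ≤ ds z ρz y := fun y => (k6 y z).trans (l1 y)
  have gz : g z - g x = -(κ * r / 16384) + κ / 2 * ds x ρ z := by
    have : uu κ ρ g x z = g z - g x - κ / 2 * ds x ρ z := rfl
    rw [this] at huz
    linarith
  have gu : ∀ y, uu κ ρ g x y = g y - g x - κ / 2 * ds x ρ y := fun y => rfl
  have gw : ∀ y, ww κ ρ g x y = g y - g x - 3 * κ / 4 * ds x ρ y := fun y => rfl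
  have gwz : ∀ y, ww κ ρz g z y = g y - g z - 3 * κ / 4 * ds z ρz y := fun y => rfl
  -- (i)
  have f1 : ∀ y, ds x ρ y < 5 / 8 * r' → uu κ ρ g x y < κ * r' / 32 →
      ww κ ρz g z y ≤ -(8 * ρz) := by
    intro y h1 h2
    rw [gwz]
    rw [gu] at h2
    have e1 := (l2 y)
    have e2 : κ * ds x ρ y ≤ κ * (5 / 8 * r') := mul_le_mul_of_nonneg_left h1.le hκ.le
    have e3 : κ * (r / 64) ≤ κ * ds x ρ z := mul_le_mul_of_nonneg_left g1 hκ.le
    have e4 : 0 ≤ κ * ds z ρz y := mul_nonneg hκ.le (hρz.le.trans e1)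
    nlinarith
  -- (iv)
  have f4 : ∀ y, -(8 * ρz) < ww κ ρz g z y → uu κ ρ g x y < κ * r / 32 → y ∈ closedBall x r := by
    intro y h1 h2
    rw [gwz] at h1
    rw [gu] at h2
    have e1 := (abs_le.1 (g4 y)).2
    have e2 : κ * (ds x ρ y - ds x ρ z) ≤ κ * ds z ρz y := mul_le_mul_of_nonneg_left e1 hκ.le
    have e3 : κ * ds z ρz y < κ * (1 / 2 * r) := by nlinarith
    have e4 : ds z ρz y < 1 / 2 * r := lt_of_mul_lt_mul_left e3 hκ.le
    rw [mem_closedBall, dist_eq_norm]
    have e5 := g3 y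
    have e6 := k4 y
    linarith
  -- (iii)
  have f3 : ∀ y, -(8 * ρz) < ww κ ρz g z y → -(κ * r / 16) ≤ ww κ ρ g x y := by
    intro y h1
    rw [gwz] at h1
    rw [gw]
    have e1 : κ * ds x ρ y ≤ κ * (ds z ρz y + 9 / 128 * r) :=
      mul_le_mul_of_nonneg_left (g3 y) hκ.le
    have e3 : κ * (r / 64) ≤ κ * ds x ρ z := mul_le_mul_of_nonneg_left g1 hκ.le
    nlinarith
  -- near `z`
  have f2 : ∀ y ∈ closedBall z ρz, uu κ ρ g x y ≤ 0 ∧ -(13 / 4 * ρz) ≤ ww κ ρz g z y ∧
      ww κ ρz g z y ≤ 7 / 4 * ρz := by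
    intro y hy
    rw [mem_closedBall, dist_eq_norm] at hy
    have e1 := (len_le_norm' (y - z)).trans (mul_le_mul_of_nonneg_left hy (by norm_num))
    have e2 := abs_le.1 (h.lip y z)
    have e3 := abs_le.1 ((k6 y z).trans e1)
    have e4 := l5 y hy
    have e5 := l2 y
    have e6 : κ * (ds x ρ z - ds x ρ y) ≤ 1 * (7 / 4 * ρz) := by
      have : ds x ρ z - ds x ρ y ≤ 7 / 4 * ρz := by linarith
      nlinarith
    have e7 : κ * ds z ρz y ≤ 1 * (2 * ρz) := by nlinarith
    have e8 : 0 ≤ κ * ds z ρz y := mul_nonneg hκ.le (by linarith)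
    refine ⟨?_, ?_, ?_⟩
    · rw [gu]
      nlinarith
    · rw [gwz]
      nlinarith
    · rw [gwz]
      nlinarith
  -- the test function
  obtain ⟨A, hA⟩ : ∃ A : V → ℝ, A = fun y => st (-(κ * r' / 8)) (κ * r' / 16) (ww κ ρ g x y) *
    st (κ * r' / 64) (κ * r' / 64) (uu κ ρ g x y) := ⟨_, rfl⟩
  obtain ⟨Bz, hBz⟩ : ∃ Bz : V → ℝ, Bz = fun y => st (-(8 * ρz)) (16 * ρz) (ww κ ρz g z y) :=
    ⟨_, rfl⟩
  obtain ⟨Q, hQ⟩ : ∃ Q : V → ℝ, Q = fun y => st (κ * r / 64) (κ * r / 64) (uu κ ρ g x y) :=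
    ⟨_, rfl⟩
  obtain ⟨F, hF⟩ : ∃ F : V → ℝ, F = fun y => (A y + Bz y - A y * Bz y) * (1 - Q y) := ⟨_, rfl⟩
  have hA1 : ContDiff ℝ 1 A := by
    rw [hA]
    exact ((st_c1 hB _ _).comp hw1).mul ((st_c1 hB _ _).comp hu1)
  have hBz1 : ContDiff ℝ 1 Bz := by
    rw [hBz]
    exact (st_c1 hB _ _).comp hz1
  have hQ1 : ContDiff ℝ 1 Q := by
    rw [hQ]
    exact (st_c1 hB _ _).comp hu1
  have hF1 : ContDiff ℝ 1 F := by
    rw [hF]
    exact ((hA1.add hBz1).sub (hA1.mul hBz1)).mul (contDiff_const.sub hQ1)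
  have hb8 : 0 < κ * r' / 16 := by positivity
  have hb64 : 0 < κ * r' / 64 := by positivity
  have hbr : 0 < κ * r / 64 := by positivity
  have hbz : 0 < 16 * ρz := by positivity
  have sA : ∀ y, A y ≠ 0 → -(κ * r' / 8) < ww κ ρ g x y := by
    intro y hy
    rw [hA] at hy
    exact st_pos hB hb8 (left_ne_zero_of_mul hy)
  have sB : ∀ y, Bz y ≠ 0 → -(8 * ρz) < ww κ ρz g z y := by
    intro y hy
    rw [hBz] at hy
    exact st_pos hB hbz hy
  have sQ : ∀ y, 1 - Q y ≠ 0 → uu κ ρ g x y < κ * r / 32 := by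
    intro y hy
    have h1 : Q y ≠ 1 := fun h0 => hy (by rw [h0]; ring)
    rw [hQ] at h1
    have := st_lt hB hbr h1
    linarith
  have sAQ : ∀ y, -(κ * r' / 8) < ww κ ρ g x y → uu κ ρ g x y < κ * r / 32 →
      y ∈ closedBall x r := by
    intro y h1 h2
    have h3 := ds_lt (r := r) hκ (by linarith : -(κ * r / 8) < ww κ ρ g x y) h2
    rw [mem_closedBall, dist_eq_norm]
    linarith [k4 y]
  have hsub : closedBall x r ⊆ closedBall x R := closedBall_subset_closedBall hrR
  have hsupp : ∀ y, F y ≠ 0 → y ∈ closedBall x R := by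
    intro y hy
    rw [hF] at hy
    have h1 := sQ y (right_ne_zero_of_mul hy)
    have h2 := left_ne_zero_of_mul hy
    apply hsub
    by_cases h3 : A y = 0
    · have h4 : Bz y ≠ 0 := fun h4 => h2 (by rw [h3, h4]; ring)
      exact f4 y (sB y h4) h1
    · exact sAQ y (sA y h3) h1
  have h0 := zero_int h.wd hF1 hsupp
  have hzball : closedBall z ρz ⊆ closedBall x r := by
    intro y hy
    obtain ⟨h1, h2, -⟩ := f2 y hy
    exact f4 y (by linarith) (by linarith)
  -- the pointwise inequality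
  have key : ∀ y ∈ closedBall x R,
      Pool.Agent.Q85.VL.pr κ ρ g x W m r' y - Pool.Agent.Q85.VL.pr κ ρ g x W m r y
        + 8192 / r * (closedBall z ρz).indicator f y
        - 106496 / (κ * r) * (closedBall x r).indicator m y ≤ fderiv ℝ F y (W y) := by
    intro y hy
    have hf0 := f_nn h hy
    have hm0 := h.m0 y
    have du := uu_lo hB hκ hρ h x hy
    have dw := ww_lo hB hκ hρ h x hy
    have dz := ww_lo hB hκ hρz h z hy
    obtain ⟨Du, hDu⟩ : ∃ Du, Du = fderiv ℝ (uu κ ρ g x) y (W y) := ⟨_, rfl⟩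
    obtain ⟨Dw, hDw⟩ : ∃ Dw, Dw = fderiv ℝ (ww κ ρ g x) y (W y) := ⟨_, rfl⟩
    obtain ⟨Dz, hDz⟩ : ∃ Dz, Dz = fderiv ℝ (ww κ ρz g z) y (W y) := ⟨_, rfl⟩
    have du0 : 0 ≤ κ / 2 * f y := by positivity
    have dw0 : 0 ≤ κ / 4 * f y := by positivity
    obtain ⟨a, had⟩ : ∃ a, a = st (-(κ * r' / 8)) (κ * r' / 16) (ww κ ρ g x y) := ⟨_, rfl⟩
    obtain ⟨a', had'⟩ : ∃ a, a = st' (-(κ * r' / 8)) (κ * r' / 16) (ww κ ρ g x y) := ⟨_, rfl⟩
    obtain ⟨p, hpd⟩ : ∃ a, a = st (κ * r' / 64) (κ * r' / 64) (uu κ ρ g x y) := ⟨_, rfl⟩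
    obtain ⟨p', hpd'⟩ : ∃ a, a = st' (κ * r' / 64) (κ * r' / 64) (uu κ ρ g x y) := ⟨_, rfl⟩
    obtain ⟨b, hbd⟩ : ∃ a, a = st (-(8 * ρz)) (16 * ρz) (ww κ ρz g z y) := ⟨_, rfl⟩
    obtain ⟨b', hbd'⟩ : ∃ a, a = st' (-(8 * ρz)) (16 * ρz) (ww κ ρz g z y) := ⟨_, rfl⟩
    obtain ⟨q, hqd⟩ : ∃ a, a = st (κ * r / 64) (κ * r / 64) (uu κ ρ g x y) := ⟨_, rfl⟩
    obtain ⟨q', hqd'⟩ : ∃ a, a = st' (κ * r / 64) (κ * r / 64) (uu κ ρ g x y) := ⟨_, rfl⟩
    obtain ⟨T, hTd⟩ : ∃ a, a = st (-(κ * r / 8)) (κ * r / 16) (ww κ ρ g x y) := ⟨_, rfl⟩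
    have hDF : fderiv ℝ F y (W y) = ((a' * Dw * p + a * (p' * Du)) * (1 - b)
        + b' * Dz * (1 - a * p)) * (1 - q) - (a * p + b - a * p * b) * (q' * Du) := by
      have e1 := comp_der (st_der hB (-(κ * r' / 8)) (κ * r' / 16))
        (hw1.differentiable one_ne_zero y)
      have e2 := comp_der (st_der hB (κ * r' / 64) (κ * r' / 64))
        (hu1.differentiable one_ne_zero y)
      have e3 := comp_der (st_der hB (-(8 * ρz)) (16 * ρz)) (hz1.differentiable one_ne_zero y)
      have e4 := comp_der (st_der hB (κ * r / 64) (κ * r / 64)) (hu1.differentiable one_ne_zero y)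
      have e5 := e1.fun_mul e2
      have e6 := ((e5.fun_add e3).fun_sub (e5.fun_mul e3)).fun_mul (e4.const_sub 1)
      have e7 : F = fun y => (st (-(κ * r' / 8)) (κ * r' / 16) (ww κ ρ g x y) *
          st (κ * r' / 64) (κ * r' / 64) (uu κ ρ g x y)
          + st (-(8 * ρz)) (16 * ρz) (ww κ ρz g z y)
          - st (-(κ * r' / 8)) (κ * r' / 16) (ww κ ρ g x y) *
          st (κ * r' / 64) (κ * r' / 64) (uu κ ρ g x y) *
            st (-(8 * ρz)) (16 * ρz) (ww κ ρz g z y)) *
          (1 - st (κ * r / 64) (κ * r / 64) (uu κ ρ g x y)) := by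
        rw [hF, hA, hBz, hQ]
      rw [e7, e6.fderiv]
      simp only [add_apply, sub_apply, smul_apply, neg_apply, smul_eq_mul, ← hDu, ← hDw,
        ← hDz, ← had, ← had', ← hpd, ← hpd', ← hbd, ← hbd', ← hqd, ← hqd']
      ring
    rw [← hDu] at du
    rw [← hDw] at dw
    rw [← hDz] at dz
    have a0 : 0 ≤ a := by rw [had]; exact st_nn hB _ _ _
    have a1 : a ≤ 1 := by rw [had]; exact st_le hB _ _ _
    have a0' : 0 ≤ a' := by rw [had']; exact st'_nn hB hb8 _ _
    have a1' : a' ≤ 8192 / (κ * r) := by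
      rw [had']
      refine (st'_le hB hb8 _ _).trans (le_of_eq ?_)
      rw [← hκrr]
      field_simp
      norm_num
    have p0 : 0 ≤ p := by rw [hpd]; exact st_nn hB _ _ _
    have p1 : p ≤ 1 := by rw [hpd]; exact st_le hB _ _ _
    have p0' : 0 ≤ p' := by rw [hpd']; exact st'_nn hB hb64 _ _
    have p1' : p' ≤ 32768 / (κ * r) := by
      rw [hpd']
      refine (st'_le hB hb64 _ _).trans (le_of_eq ?_)
      rw [← hκrr]
      field_simp
      norm_num
    have b0 : 0 ≤ b := by rw [hbd]; exact st_nn hB _ _ _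
    have b1 : b ≤ 1 := by rw [hbd]; exact st_le hB _ _ _
    have b0' : 0 ≤ b' := by rw [hbd']; exact st'_nn hB hbz _ _
    have b1' : b' ≤ 65536 / (κ * r) := by
      rw [hbd']
      refine (st'_le hB hbz _ _).trans (le_of_eq ?_)
      rw [← hρz']
      field_simp
      norm_num
    have q0 : 0 ≤ q := by rw [hqd]; exact st_nn hB _ _ _
    have q1 : q ≤ 1 := by rw [hqd]; exact st_le hB _ _ _
    have q0' : 0 ≤ q' := by rw [hqd']; exact st'_nn hB hbr _ _
    have T0 : 0 ≤ T := by rw [hTd]; exact st_nn hB _ _ _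
    have sq : 1 - q ≠ 0 → uu κ ρ g x y < κ * r / 32 := by
      intro h1
      apply sQ y
      rw [hQ]
      show 1 - st (κ * r / 64) (κ * r / 64) (uu κ ρ g x y) ≠ 0
      rwa [← hqd]
    have sa' : a' ≠ 0 → -(κ * r' / 8) < ww κ ρ g x y := by
      intro h1
      rw [had'] at h1
      exact (st'_ne hB hb8 h1).1
    have sa : a ≠ 0 → -(κ * r' / 8) < ww κ ρ g x y := by
      intro h1
      rw [had] at h1
      exact st_pos hB hb8 h1
    have sb' : b' ≠ 0 → -(8 * ρz) < ww κ ρz g z y := by
      intro h1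
      rw [hbd'] at h1
      exact (st'_ne hB hbz h1).1
    have sb : b ≠ 0 → -(8 * ρz) < ww κ ρz g z y := by
      intro h1
      rw [hbd] at h1
      exact st_pos hB hbz h1
    -- the four terms
    have t1 : -(8192 / (κ * r) * (closedBall x r).indicator m y)
        ≤ (a' * p * (1 - b) * (1 - q)) * Dw := by
      refine term_lo rfl hm0 (by linarith) (by
        have := sub_nonneg.2 b1
        have := sub_nonneg.2 q1
        positivity) ?_ ?_
      · calc a' * p * (1 - b) * (1 - q) ≤ a' * 1 * 1 * 1 := by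
              have := sub_nonneg.2 b1
              have := sub_nonneg.2 q1
              gcongr <;> linarith
          _ = a' := by ring
          _ ≤ _ := a1'
      · intro hne
        have n1 : 1 - q ≠ 0 := right_ne_zero_of_mul hne
        have n2 : a' ≠ 0 := left_ne_zero_of_mul (left_ne_zero_of_mul (left_ne_zero_of_mul hne))
        exact sAQ y (sa' n2) (sq n1)
    have t2 : a * (p' * (Du + m y)) - 32768 / (κ * r) * (closedBall x r).indicator m y
        ≤ a * p' * Du * (1 - b) * (1 - q) := by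
      by_cases hne : a * p' = 0
      · have e1 : a * (p' * (Du + m y)) = (a * p') * (Du + m y) := by ring
        rw [e1, hne]
        have := ind_nn h.m0 (closedBall x r) y
        have h2 : 0 ≤ 32768 / (κ * r) * (closedBall x r).indicator m y := by positivity
        linarith
      · have n1 : p' ≠ 0 := right_ne_zero_of_mul hne
        have n2 : a ≠ 0 := left_ne_zero_of_mul hne
        have h1 : uu κ ρ g x y < κ * r' / 32 := by
          rw [hpd'] at n1
          have := (st'_ne hB hb64 n1).2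
          linarith
        have h2 : ds x ρ y < 5 / 8 * r' := ds_lt hκ (sa n2) h1
        have h3 : b = 0 := by
          by_contra hb0
          exact absurd (f1 y h2 h1) (not_le.2 (sb hb0))
        have h4 : q = 0 := by
          rw [hqd]
          exact st_zero hB hbr (by linarith)
        have h5 : y ∈ closedBall x r := sAQ y (sa n2) (by linarith)
        rw [indicator_of_mem h5, h3, h4]
        have h6 : a * p' ≤ 1 * (32768 / (κ * r)) := mul_le_mul a1 p1' p0' zero_le_one
        have h7 := mul_le_mul_of_nonneg_right h6 hm0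
        have h8 : a * (p' * (Du + m y)) = a * p' * Du + a * p' * m y := by ring
        have h9 : a * p' * Du * (1 - 0) * (1 - 0) = a * p' * Du := by ring
        rw [h8, h9]
        linarith
    have t3 : 8192 / r * (closedBall z ρz).indicator f y
        - 65536 / (κ * r) * (closedBall x r).indicator m y ≤ b' * Dz * (1 - a * p) * (1 - q) := by
      have hap : a * p ≤ 1 := mul_le_one₀ a1 p0 p1
      obtain ⟨P, hP⟩ : ∃ P, P = b' * (1 - a * p) * (1 - q) := ⟨_, rfl⟩
      have hP0 : 0 ≤ P := by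
        rw [hP]
        have := sub_nonneg.2 hap
        have := sub_nonneg.2 q1
        positivity
      have hP1 : P ≤ 65536 / (κ * r) := by
        rw [hP]
        have h1 := sub_nonneg.2 hap
        have h2 := sub_nonneg.2 q1
        have h3 : 0 ≤ a * p := by positivity
        calc b' * (1 - a * p) * (1 - q) ≤ b' * 1 * 1 := by gcongr <;> linarith
          _ = b' := by ring
          _ ≤ _ := b1'
      have hPs : P ≠ 0 → y ∈ closedBall x r := by
        intro hne
        rw [hP] at hne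
        exact f4 y (sb' (left_ne_zero_of_mul (left_ne_zero_of_mul hne)))
          (sq (right_ne_zero_of_mul hne))
      have e1 : b' * Dz * (1 - a * p) * (1 - q) = P * (Dz - κ / 4 * f y) + P * (κ / 4 * f y) := by
        rw [hP]
        ring
      have e2 := term_lo (M := m) (S := closedBall x r) rfl hm0
        (by linarith : -m y ≤ Dz - κ / 4 * f y) hP0 hP1 hPs
      have e3 : 8192 / r * (closedBall z ρz).indicator f y ≤ P * (κ / 4 * f y) := by
        by_cases hyz : y ∈ closedBall z ρz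
        · rw [indicator_of_mem hyz]
          obtain ⟨i1, i2, i3⟩ := f2 y hyz
          have j1 : p = 0 := by
            rw [hpd]
            exact st_zero hB hb64 (by linarith)
          have j2 : q = 0 := by
            rw [hqd]
            exact st_zero hB hbr (by linarith)
          have j3 : 1 / (16 * ρz) ≤ b' := by
            rw [hbd']
            unfold st' stp'
            obtain ⟨s', hs'⟩ : ∃ s', s' = (ww κ ρz g z y - -(8 * ρz)) / (16 * ρz) := ⟨_, rfl⟩
            rw [← hs']
            have c1 : 1 / 4 ≤ s' := by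
              rw [hs', le_div_iff₀ hbz]
              linarith
            have c2 : s' ≤ 3 / 4 := by
              rw [hs', div_le_iff₀ hbz]
              linarith
            rw [min_eq_right (by linarith), max_eq_right (by linarith)]
            exact div_le_div_of_nonneg_right (by nlinarith) hbz.le
          have j4 : P = b' := by
            rw [hP, j1, j2]
            ring
          rw [j4]
          have j5 : 8192 / r = 1 / (16 * ρz) * (κ / 4) := by
            rw [hρzd]
            field_simp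
            norm_num
          rw [j5, mul_assoc]
          exact mul_le_mul_of_nonneg_right j3 (by positivity)
        · rw [indicator_of_notMem hyz, mul_zero]
          positivity
      rw [e1]
      linarith
    have t4 : -(T * (q' * (Du + m y))) ≤ -((a * p + b - a * p * b) * (q' * Du)) := by
      have hap : a * p ≤ 1 := mul_le_one₀ a1 p0 p1
      have hap0 : 0 ≤ a * p := by positivity
      have hC1 : a * p + b - a * p * b ≤ 1 := by
        have h1 : 0 ≤ (1 - a * p) * (1 - b) := mul_nonneg (sub_nonneg.2 hap) (sub_nonneg.2 b1)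
        have h2 : (1 - a * p) * (1 - b) = 1 - (a * p + b - a * p * b) := by ring
        linarith
      have hC0 : 0 ≤ a * p + b - a * p * b := by
        have h1 : 0 ≤ a * p * (1 - b) := mul_nonneg hap0 (sub_nonneg.2 b1)
        have h2 : a * p * (1 - b) = a * p - a * p * b := by ring
        linarith
      have hT : q' ≠ 0 → a * p + b - a * p * b ≤ T := by
        intro hq'
        by_cases hz0 : a = 0 ∧ b = 0
        · rw [hz0.1, hz0.2]
          simpa using T0
        · have hT1 : T = 1 := by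
            rw [hTd]
            apply st_one hB (by positivity)
            by_cases ha0 : a = 0
            · have hb0 : b ≠ 0 := fun hb0 => hz0 ⟨ha0, hb0⟩
              have := f3 y (sb hb0)
              linarith
            · have := sa ha0
              linarith
          rw [hT1]
          exact hC1
      by_cases hq' : q' = 0
      · rw [hq']
        simp
      · have h1 := hT hq'
        have h2 : 0 ≤ q' * (Du + m y) := mul_nonneg q0' (by linarith)
        have h3 : (a * p + b - a * p * b) * (q' * Du)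
            ≤ (a * p + b - a * p * b) * (q' * (Du + m y)) := by
          apply mul_le_mul_of_nonneg_left _ hC0
          apply mul_le_mul_of_nonneg_left _ q0'
          linarith
        have h4 := mul_le_mul_of_nonneg_right h1 h2
        linarith
    rw [hDF, pr_eq, pr_eq, ← had, ← hpd', ← hDu, ← hTd, ← hqd']
    have e8 : 106496 / (κ * r) = 8192 / (κ * r) + 32768 / (κ * r) + 65536 / (κ * r) := by
      rw [← add_div, ← add_div]
      norm_num
    rw [e8]
    have e9 : ((a' * Dw * p + a * (p' * Du)) * (1 - b)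
        + b' * Dz * (1 - a * p)) * (1 - q) - (a * p + b - a * p * b) * (q' * Du)
        = (a' * p * (1 - b) * (1 - q)) * Dw + a * p' * Du * (1 - b) * (1 - q)
          + b' * Dz * (1 - a * p) * (1 - q) + -((a * p + b - a * p * b) * (q' * Du)) := by ring
    rw [e9]
    linarith [t1, t2, t3, t4]
  -- integration
  have i1 : IntegrableOn (Pool.Agent.Q85.VL.pr κ ρ g x W m r') (closedBall x R) :=
    int_cb (pr_cont hB hρ h r') x R
  have i2 : IntegrableOn (Pool.Agent.Q85.VL.pr κ ρ g x W m r) (closedBall x R) :=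
    int_cb (pr_cont hB hρ h r) x R
  have i3 : IntegrableOn ((closedBall z ρz).indicator f) (closedBall x R) :=
    (int_cb h.fc x R).indicator isClosed_closedBall.measurableSet
  have i4 : IntegrableOn ((closedBall x r).indicator m) (closedBall x R) :=
    (int_cb h.mc x R).indicator isClosed_closedBall.measurableSet
  have hint : ∫ y in closedBall x R, (Pool.Agent.Q85.VL.pr κ ρ g x W m r' y
      - Pool.Agent.Q85.VL.pr κ ρ g x W m r y + 8192 / r * (closedBall z ρz).indicator f y
        - 106496 / (κ * r) * (closedBall x r).indicator m y) ≤ 0 := by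
    rw [← h0]
    exact setIntegral_mono_on (((i1.sub i2).add (i3.const_mul _)).sub (i4.const_mul _))
      (int_cb (fderiv_W_cont hF1 h.wd.cont) x R) isClosed_closedBall.measurableSet key
  rw [int4 _ _ i1 i2 i3 i4, int_ind' isClosed_closedBall.measurableSet (hzball.trans hsub),
    int_ind' isClosed_closedBall.measurableSet hsub] at hint
  show _ ≤ r / 512 * (AA κ ρ R g x W m r - AA κ ρ R g x W m r') + 1024 / κ * _
  unfold AA
  have hm1 : 0 ≤ ∫ y in closedBall x r, m y :=
    setIntegral_nonneg isClosed_closedBall.measurableSet fun y _ => h.m0 y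
  have hf1 : 0 ≤ ∫ y in closedBall z ρz, f y :=
    setIntegral_nonneg isClosed_closedBall.measurableSet fun y hy =>
      f_nn h (hsub (hzball hy))
  obtain ⟨X, hX⟩ : ∃ X, X = ∫ y in closedBall z ρz, f y := ⟨_, rfl⟩
  obtain ⟨Y, hY⟩ : ∃ Y, Y = ∫ y in closedBall x r, m y := ⟨_, rfl⟩
  obtain ⟨A1, hA1'⟩ : ∃ A1, A1 = ∫ y in closedBall x R, Pool.Agent.Q85.VL.pr κ ρ g x W m r y :=
    ⟨_, rfl⟩
  obtain ⟨A2, hA2'⟩ : ∃ A2, A2 = ∫ y in closedBall x R, Pool.Agent.Q85.VL.pr κ ρ g x W m r' y :=
    ⟨_, rfl⟩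
  rw [← hX] at hf1 hint ⊢
  rw [← hY] at hm1 hint ⊢
  rw [← hA1', ← hA2'] at hint ⊢
  have e1 : 8192 / r * X ≤ (A1 - A2) + 106496 / (κ * r) * Y := by linarith
  have e2 : 8192 * X ≤ r * (A1 - A2) + 106496 / κ * Y := by
    have := mul_le_mul_of_nonneg_left e1 hr.le
    have c1 : r * (8192 / r * X) = 8192 * X := by field_simp
    have c2 : r * ((A1 - A2) + 106496 / (κ * r) * Y) = r * (A1 - A2) + 106496 / κ * Y := by
      field_simp
    rwa [c1, c2] at this
  have e3 : 0 ≤ Y / κ := by positivity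
  have c3 : 106496 / κ * Y = 106496 * (Y / κ) := by ring
  have c4 : 1024 / κ * Y = 1024 * (Y / κ) := by ring
  rw [c3] at e2
  rw [c4]
  nlinarith

end Pool.Agent.Helper33VL
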